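import Pool.Agent.H306R2.SM.Defs
import Pool.Agent.H306R2.Arith

set_option autoImplicit false

/-!
T9c of the sixth moment project: asymptotics of `MM` (in terms of the results of T9a, T9b).
-/

namespace Pool.Agent.H705R2.SMT9c

open Finset Filter Topology MeasureTheory Complex
open Pool.Agent.H306R2 Pool.Agent.H306R2.SM

lemma d3_nonneg (n : ℕ) : 0 ≤ d3 n := dv_nonneg (by norm_num) n

lemma d3_le (n : ℕ) : d3 n ≤ (n : ℝ) ^ 3 := by
  have h : PB (dA (3 : ℝ)) 3 := PB_dA (by norm_num) (by norm_num)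
  exact (le_abs_self _).trans (h n)

lemma Vk_summable (k : ℕ) (u : ℝ) (hu : 0 < u) :
    Summable (fun m : ℕ => d3 m * ((m : ℝ) / u) ^ k * Real.exp (-((m : ℝ) / u))) := by
  have h1 : Summable (fun m : ℕ => (1 / u ^ k) * ((m : ℝ) ^ (k + 3) * Real.exp (-(1 / u) * m))) :=
    (Real.summable_pow_mul_exp_neg_nat_mul (k + 3) (by positivity)).mul_left _
  refine Summable.of_nonneg_of_le (fun m => ?_) (fun m => ?_) h1
  · exact mul_nonneg (mul_nonneg (d3_nonneg m) (by positivity)) (Real.exp_pos _).le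
  · have e1 : (1 / u ^ k) * ((m : ℝ) ^ (k + 3) * Real.exp (-(1 / u) * m)) =
        (m : ℝ) ^ 3 * ((m : ℝ) / u) ^ k * Real.exp (-((m : ℝ) / u)) := by
      rw [show -(1 / u) * (m : ℝ) = -((m : ℝ) / u) by ring, div_pow]
      field_simp
      ring
    rw [e1]
    exact mul_le_mul_of_nonneg_right (mul_le_mul_of_nonneg_right (d3_le m) (by positivity))
      (Real.exp_pos _).le

/-- the weight -/
noncomputable def Gw (k h l : ℕ) (Y : ℝ) (n : ℕ) : ℝ :=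
  ((n : ℝ) * l / h) ^ k * Real.exp (-((n : ℝ) * l / h / Y))

lemma Gw_mul (k h l : ℕ) (Y : ℝ) (hh : 1 ≤ h) (hl : 1 ≤ l) (hY : 0 < Y) (e m : ℕ) (he : 1 ≤ e) :
    Gw k h l Y (e * m) = Y ^ k * (((m : ℝ) / (h * Y / (e * l))) ^ k *
      Real.exp (-((m : ℝ) / (h * Y / (e * l))))) := by
  have h0 : (0 : ℝ) < h := by exact_mod_cast hh
  have l0 : (0 : ℝ) < l := by exact_mod_cast hl
  have e0 : (0 : ℝ) < e := by exact_mod_cast he
  unfold Gw
  rw [← mul_assoc, ← mul_pow]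
  have e1 : (((e * m : ℕ) : ℝ)) * l / h = Y * ((m : ℝ) / (h * Y / (e * l))) := by
    push_cast; field_simp
  have e2 : (((e * m : ℕ) : ℝ)) * l / h / Y = (m : ℝ) / (h * Y / (e * l)) := by
    rw [e1]; field_simp
  rw [e2, e1]

section
variable
  (h9b1 : ∀ h n : ℕ, 1 ≤ h → 1 ≤ n →
    (d3 n : ℂ) * rc h n = ((∑ e ∈ n.divisors, rho h e * d3 (n / e) : ℝ) : ℂ))
  (h9b2 : ∀ h e : ℕ, 1 ≤ h → rho h e ≠ 0 → e ∈ (h ^ 3).divisors)

include h9b2 in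
lemma sum_switch (h n : ℕ) (hh : 1 ≤ h) (hn : 1 ≤ n) :
    ∑ e ∈ n.divisors, rho h e * d3 (n / e) =
      ∑ e ∈ (h ^ 3).divisors, if e ∣ n then rho h e * d3 (n / e) else 0 := by
  rw [← sum_filter]
  have h1 : ∑ e ∈ n.divisors, rho h e * d3 (n / e) =
      ∑ e ∈ n.divisors.filter (fun e => e ∈ (h ^ 3).divisors), rho h e * d3 (n / e) := by
    symm
    apply sum_filter_of_ne
    intro e _ he
    exact h9b2 h e hh (left_ne_zero_of_mul he)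
  rw [h1]
  apply sum_congr _ (fun _ _ => rfl)
  ext e
  simp only [mem_filter, Nat.mem_divisors]
  constructor
  · rintro ⟨⟨h2, _⟩, h4⟩; exact ⟨h4, h2⟩
  · rintro ⟨h4, h2⟩; exact ⟨⟨h2, by omega⟩, h4⟩

include h9b1 h9b2 in
lemma MM_eq (k h l : ℕ) (Y : ℝ) (hk : 1 ≤ k) (hh : 1 ≤ h) (hl : 1 ≤ l) (hY : 0 < Y) :
    MM k h l Y = (((k.factorial : ℝ) * Y ^ k *
      ∑ e ∈ (h ^ 3).divisors, rho h e * Vk k (h * Y / (e * l)) : ℝ) : ℂ) := by
  have h0 : (0 : ℝ) < h := by exact_mod_cast hh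
  have l0 : (0 : ℝ) < l := by exact_mod_cast hl
  set F : ℕ → ℕ → ℝ := fun e n =>
    Gw k h l Y n * (if e ∣ n then rho h e * d3 (n / e) else 0) with hF
  have h1 : ∀ n : ℕ, ((d3 n * ((n : ℝ) * l / h) ^ k * Real.exp (-((n : ℝ) * l / h / Y)) : ℝ) : ℂ) *
      rc h n = ((∑ e ∈ (h ^ 3).divisors, F e n : ℝ) : ℂ) := by
    intro n
    rcases Nat.eq_zero_or_pos n with h0 | hn
    · subst h0
      have hG : Gw k h l Y 0 = 0 := by
        unfold Gw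
        rw [Nat.cast_zero, zero_mul, zero_div, zero_pow (by omega), zero_mul]
      have : ∀ e ∈ (h ^ 3).divisors, F e 0 = 0 := by
        intro e _
        rw [hF]; simp only [hG, zero_mul]
      rw [sum_eq_zero this, Nat.cast_zero, zero_mul, zero_div, zero_pow (by omega)]
      simp
    · have e1 : ((d3 n * ((n : ℝ) * l / h) ^ k * Real.exp (-((n : ℝ) * l / h / Y)) : ℝ) : ℂ) *
          rc h n = ((Gw k h l Y n : ℝ) : ℂ) * ((d3 n : ℂ) * rc h n) := by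
        unfold Gw; push_cast; ring
      rw [e1, h9b1 h n hh hn, sum_switch h9b2 h n hh hn, ← Complex.ofReal_mul, mul_sum]
  unfold MM
  rw [tsum_congr h1, ← Complex.ofReal_tsum]
  congr 1
  -- the inner functions
  have hinj : ∀ e ∈ (h ^ 3).divisors, Function.Injective (fun m : ℕ => e * m) := by
    intro e he
    have : 0 < e := Nat.pos_of_mem_divisors he
    exact fun a b hab => Nat.eq_of_mul_eq_mul_left this hab
  have hcomp : ∀ e ∈ (h ^ 3).divisors, ∀ m : ℕ, F e (e * m) =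
      (rho h e * Y ^ k) * (d3 m * ((m : ℝ) / (h * Y / (e * l))) ^ k *
        Real.exp (-((m : ℝ) / (h * Y / (e * l))))) := by
    intro e he m
    have he0 : 0 < e := Nat.pos_of_mem_divisors he
    rw [hF]
    simp only
    rw [if_pos (Dvd.intro m rfl), Nat.mul_div_cancel_left m he0, Gw_mul k h l Y hh hl hY e m he0]
    ring
  have hout : ∀ e ∈ (h ^ 3).divisors, ∀ n, n ∉ Set.range (fun m : ℕ => e * m) → F e n = 0 := by
    intro e _ n hn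
    have : ¬ e ∣ n := fun ⟨c, hc⟩ => hn ⟨c, hc.symm⟩
    rw [hF]; simp only [if_neg this, mul_zero]
  have hupos : ∀ e ∈ (h ^ 3).divisors, 0 < (h : ℝ) * Y / (e * l) := by
    intro e he
    have : (0 : ℝ) < e := by exact_mod_cast Nat.pos_of_mem_divisors he
    positivity
  have hsum : ∀ e ∈ (h ^ 3).divisors, Summable (F e) := by
    intro e he
    rw [← (hinj e he).summable_iff (hout e he)]
    refine ((Vk_summable k _ (hupos e he)).mul_left (rho h e * Y ^ k)).congr (fun m => ?_)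
    rw [Function.comp_apply, hcomp e he m]
  rw [Summable.tsum_finsetSum hsum, mul_sum]
  apply sum_congr rfl
  intro e he
  rw [← (hinj e he).tsum_eq (Function.support_subset_iff'.mpr (hout e he))]
  rw [tsum_congr (hcomp e he), tsum_mul_left]
  have hk0 : (k.factorial : ℝ) ≠ 0 := by positivity
  have hV : ∑' m : ℕ, d3 m * ((m : ℝ) / (h * Y / (e * l))) ^ k *
      Real.exp (-((m : ℝ) / (h * Y / (e * l)))) = (k.factorial : ℝ) * Vk k (h * Y / (e * l)) := by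
    unfold Vk
    rw [mul_div_cancel₀ _ hk0]
  rw [hV]
  ring

end

lemma Em_one_le (h : ℕ) : 1 ≤ Em h := by
  unfold Em Finsupp.prod
  apply Finset.prod_induction _ (fun x : ℝ => 1 ≤ x)
  · intro a b ha hb
    nlinarith
  · exact le_refl _
  · intro p _
    have : 0 ≤ (if h.factorization p = 1 then 1 / (p : ℝ) else (h.factorization p : ℝ) ^ 2) := by
      split_ifs <;> positivity
    have h2 : 0 ≤ (1 + Real.log p) ^ 2 := sq_nonneg _
    nlinarith [mul_nonneg h2 this]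

lemma psi_nonneg (h : ℕ) : 0 ≤ psi h := by
  unfold psi Finsupp.prod
  apply Finset.prod_nonneg
  intro p hp
  rw [Nat.support_factorization] at hp
  have hpp := Nat.prime_of_mem_primeFactors hp
  have h1 : 1 / (p : ℝ) ≤ 1 := by
    rw [div_le_one (by exact_mod_cast hpp.pos)]
    exact_mod_cast hpp.one_lt.le
  have h2 : (0 : ℝ) ≤ (h.factorization p : ℝ) := by positivity
  nlinarith [mul_nonneg h2 (sub_nonneg.mpr h1)]

lemma main_est (C1 C4 R0 R1 R2 E Q y L K c1 c0 : ℝ) (hC1 : 0 < C1) (hC4 : 0 < C4)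
    (hR00 : 0 ≤ R0) (hEm : 1 ≤ E) (hL0 : 0 ≤ L) (hK1 : 1 ≤ K)
    (hb1 : |c1| ≤ C1 * K) (hb0 : |c0| ≤ C1 * K ^ 2)
    (h41 : |R1 + 3 / 2 * L * R0| ≤ C4 * E * R0)
    (h42 : |R2 - ((3 / 2 * L) ^ 2 - 3 / 4 * Q) * R0| ≤ C4 * E ^ 2 * (1 + L) * R0) :
    |y * (R1 + 3 / 2 * L * R0) + (R2 - ((3 / 2 * L) ^ 2 - 3 / 4 * Q) * R0) / 2 +
      c1 * (y * R0 + R1) + c0 * R0| ≤
    (3 / 2 * C4 + C1 * (C4 + 3)) * R0 * E ^ 2 * K ^ 2 * (1 + |y| + L) := by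
  have hy0 : 0 ≤ |y| := abs_nonneg y
  set X := 1 + |y| + L with hX
  have hX1 : 1 ≤ X := by linarith
  have hE0 : 0 ≤ E := by linarith
  have hE2 : E ≤ E ^ 2 := by nlinarith
  have hE1 : 1 ≤ E ^ 2 := by linarith
  have hK2 : K ≤ K ^ 2 := by nlinarith
  have hK3 : 1 ≤ K ^ 2 := by linarith
  have hR1' : |R1| ≤ (C4 * E + 3 / 2 * L) * R0 := by
    have e1 : R1 = (R1 + 3 / 2 * L * R0) - 3 / 2 * L * R0 := by ring
    rw [e1]
    refine (abs_sub _ _).trans ?_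
    rw [abs_of_nonneg (show 0 ≤ 3 / 2 * L * R0 by positivity)]
    linarith
  -- four terms
  have t1 : |y * (R1 + 3 / 2 * L * R0)| ≤ C4 * (R0 * E ^ 2 * K ^ 2 * X) := by
    rw [abs_mul]
    calc |y| * |R1 + 3 / 2 * L * R0| ≤ |y| * (C4 * E * R0) :=
          mul_le_mul_of_nonneg_left h41 hy0
      _ ≤ X * (C4 * E * R0) := by
          apply mul_le_mul_of_nonneg_right _ (by positivity); linarith
      _ = C4 * (R0 * E * 1 * X) := by ring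
      _ ≤ C4 * (R0 * E ^ 2 * K ^ 2 * X) := by gcongr
  have t2 : |(R2 - ((3 / 2 * L) ^ 2 - 3 / 4 * Q) * R0) / 2| ≤
      (C4 / 2) * (R0 * E ^ 2 * K ^ 2 * X) := by
    rw [abs_div, abs_of_pos (show (0 : ℝ) < 2 by norm_num)]
    calc |R2 - ((3 / 2 * L) ^ 2 - 3 / 4 * Q) * R0| / 2
        ≤ (C4 * E ^ 2 * (1 + L) * R0) / 2 := by linarith
      _ = (C4 / 2) * (R0 * E ^ 2 * 1 * (1 + L)) := by ring
      _ ≤ (C4 / 2) * (R0 * E ^ 2 * K ^ 2 * X) := by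
          have : 1 + L ≤ X := by linarith
          gcongr
  have t3 : |c1 * (y * R0 + R1)| ≤ (C1 * (C4 + 3 / 2)) * (R0 * E ^ 2 * K ^ 2 * X) := by
    have t31 : |y * R0 + R1| ≤ (|y| + C4 * E + 3 / 2 * L) * R0 := by
      refine (abs_add_le _ _).trans ?_
      rw [abs_mul, abs_of_nonneg hR00]
      linarith
    have t32 : |y| + C4 * E + 3 / 2 * L ≤ (C4 + 3 / 2) * (E ^ 2 * X) := by
      have a1 : C4 * E ≤ C4 * (E ^ 2 * X) := by
        apply mul_le_mul_of_nonneg_left _ hC4.le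
        calc E ≤ E ^ 2 * 1 := by linarith
          _ ≤ E ^ 2 * X := by gcongr
      have a2 : |y| + 3 / 2 * L ≤ 3 / 2 * (E ^ 2 * X) := by
        have : 1 * X ≤ E ^ 2 * X := by gcongr
        linarith
      linarith
    rw [abs_mul]
    calc |c1| * |y * R0 + R1| ≤ (C1 * K) * ((|y| + C4 * E + 3 / 2 * L) * R0) := by
          apply mul_le_mul hb1 t31 (abs_nonneg _) (by positivity)
      _ ≤ (C1 * K ^ 2) * (((C4 + 3 / 2) * (E ^ 2 * X)) * R0) := by gcongr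
      _ = (C1 * (C4 + 3 / 2)) * (R0 * E ^ 2 * K ^ 2 * X) := by ring
  have t4 : |c0 * R0| ≤ C1 * (R0 * E ^ 2 * K ^ 2 * X) := by
    rw [abs_mul, abs_of_nonneg hR00]
    calc |c0| * R0 ≤ (C1 * K ^ 2) * R0 := mul_le_mul_of_nonneg_right hb0 hR00
      _ = C1 * (R0 * 1 * K ^ 2 * 1) := by ring
      _ ≤ C1 * (R0 * E ^ 2 * K ^ 2 * X) := by gcongr
  have hW : 0 ≤ R0 * E ^ 2 * K ^ 2 * X := by positivity
  have tri : |y * (R1 + 3 / 2 * L * R0) + (R2 - ((3 / 2 * L) ^ 2 - 3 / 4 * Q) * R0) / 2 +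
      c1 * (y * R0 + R1) + c0 * R0| ≤
      |y * (R1 + 3 / 2 * L * R0)| + |(R2 - ((3 / 2 * L) ^ 2 - 3 / 4 * Q) * R0) / 2| +
      |c1 * (y * R0 + R1)| + |c0 * R0| := by
    refine (abs_add_le _ _).trans ?_
    gcongr
    refine (abs_add_le _ _).trans ?_
    gcongr
    exact abs_add_le _ _
  have hfin : C4 * (R0 * E ^ 2 * K ^ 2 * X) + (C4 / 2) * (R0 * E ^ 2 * K ^ 2 * X) +
      (C1 * (C4 + 3 / 2)) * (R0 * E ^ 2 * K ^ 2 * X) + C1 * (R0 * E ^ 2 * K ^ 2 * X) ≤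
      (3 / 2 * C4 + C1 * (C4 + 3)) * R0 * E ^ 2 * K ^ 2 * X := by
    have := mul_nonneg hC1.le hW
    linarith
  linarith

/-- the theorem from the inputs -/
theorem M_asymp_of
    (h9a : ∃ C : ℝ, ∃ A : ℕ, ∃ b1 b0 : ℕ → ℝ, 0 < C ∧
      (∀ k : ℕ, 1 ≤ k → |b1 k| ≤ C * (1 + Real.log k) ∧ |b0 k| ≤ C * (1 + Real.log k) ^ 2) ∧
      ∀ k : ℕ, 1 ≤ k → ∀ u : ℝ, 0 < u →
        |Vk k u - u * (Real.log u ^ 2 / 2 + b1 k * Real.log u + b0 k)| ≤
          C * (k : ℝ) ^ A * u ^ (3 / 4 : ℝ))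
    (h9b1 : ∀ h n : ℕ, 1 ≤ h → 1 ≤ n →
      (d3 n : ℂ) * rc h n = ((∑ e ∈ n.divisors, rho h e * d3 (n / e) : ℝ) : ℂ))
    (h9b2 : ∀ h e : ℕ, 1 ≤ h → rho h e ≠ 0 → e ∈ (h ^ 3).divisors)
    (h9b3 : ∀ h : ℕ, 1 ≤ h → ∑ e ∈ (h ^ 3).divisors, rho h e / (e : ℝ) = psi h / h)
    (h9b4 : ∃ C : ℝ, 0 < C ∧ ∀ h : ℕ, 1 ≤ h →
      |(-∑ e ∈ (h ^ 3).divisors, rho h e * Real.log e / (e : ℝ)) +
          3 / 2 * Real.log h * (psi h / h)| ≤ C * Em h * (psi h / h) ∧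
      |(∑ e ∈ (h ^ 3).divisors, rho h e * Real.log e ^ 2 / (e : ℝ)) -
          ((3 / 2 * Real.log h) ^ 2 - 3 / 4 * Qf h) * (psi h / h)| ≤
        C * Em h ^ 2 * (1 + Real.log h) * (psi h / h))
    (h9b5 : ∀ ε : ℝ, 0 < ε → ∃ C : ℝ, 0 < C ∧ ∀ h : ℕ, 1 ≤ h →
      ∑ e ∈ (h ^ 3).divisors, |rho h e| * (e : ℝ) ^ (-(3 / 4) : ℝ) ≤
        C * (h : ℝ) ^ (-(3 / 4) + ε))
    (ε : ℝ) (hε : 0 < ε) : ∃ C : ℝ, ∃ A : ℕ, 0 < C ∧ ∀ k : ℕ, 1 ≤ k →
    ∀ h l : ℕ, 1 ≤ h → 1 ≤ l → ∀ Y : ℝ, 1 ≤ Y →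
      ‖MM k h l Y / (((k.factorial : ℝ) * Y ^ (k + 1) : ℝ) : ℂ) -
        ((psi h / l * (((Real.log (h * Y / l) - 3 / 2 * Real.log h) ^ 2 - 3 / 4 * Qf h) / 2) : ℝ) : ℂ)‖
      ≤ C * (psi h / l) * Em h ^ 2 * (1 + Real.log k) ^ 2 *
          (1 + |Real.log (h * Y / l)| + Real.log h) +
        C * (k : ℝ) ^ A * (h : ℝ) ^ ε * (l : ℝ) ^ (-(3 / 4) : ℝ) * Y ^ (-(1 / 4) : ℝ) := by
  obtain ⟨C1, A1, b1, b0, hC1, hb, hV⟩ := h9a
  obtain ⟨C4, hC4, h4⟩ := h9b4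
  obtain ⟨C5, hC5, h5⟩ := h9b5 ε hε
  refine ⟨(3 / 2 * C4 + C1 * (C4 + 3)) + C1 * C5, A1, by positivity, ?_⟩
  intro k hk h l hh hl Y hY
  have hY0 : 0 < Y := by linarith
  have h0 : (0 : ℝ) < h := by exact_mod_cast hh
  have l0 : (0 : ℝ) < l := by exact_mod_cast hl
  have k0 : (0 : ℝ) < k := by exact_mod_cast hk
  have hkf : (0 : ℝ) < k.factorial := by positivity
  obtain ⟨hb1, hb0⟩ := hb k hk
  obtain ⟨h41, h42⟩ := h4 h hh
  have h43 := h9b3 h hh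
  have h51 := h5 h hh
  set D := (h ^ 3).divisors with hD
  set y := Real.log (h * Y / l) with hy
  set L := Real.log h with hL
  set R0 := psi h / (h : ℝ) with hR0
  set R1 := -∑ e ∈ D, rho h e * Real.log e / (e : ℝ) with hR1
  set R2 := ∑ e ∈ D, rho h e * Real.log e ^ 2 / (e : ℝ) with hR2
  have hL0 : 0 ≤ L := Real.log_natCast_nonneg h
  have hK0 : 0 ≤ Real.log k := Real.log_natCast_nonneg k
  have hR00 : 0 ≤ R0 := div_nonneg (psi_nonneg h) h0.le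
  have hEm := Em_one_le h
  have he0 : ∀ e ∈ D, (0 : ℝ) < e := fun e he => by exact_mod_cast Nat.pos_of_mem_divisors he
  -- the value
  rw [MM_eq h9b1 h9b2 k h l Y hk hh hl hY0, ← Complex.ofReal_div, ← Complex.ofReal_sub,
    Complex.norm_real, Real.norm_eq_abs]
  have hval : (k.factorial : ℝ) * Y ^ k * (∑ e ∈ D, rho h e * Vk k (h * Y / (e * l))) /
      ((k.factorial : ℝ) * Y ^ (k + 1)) = (∑ e ∈ D, rho h e * Vk k (h * Y / (e * l))) / Y := by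
    rw [pow_succ, mul_assoc (k.factorial : ℝ) (Y ^ k) (∑ e ∈ D, rho h e * Vk k (h * Y / (e * l))),
      mul_div_mul_left _ _ hkf.ne', mul_div_mul_left _ _ (pow_pos hY0 k).ne']
  rw [hval]
  -- the main term
  have hlogu : ∀ e ∈ D, Real.log ((h : ℝ) * Y / (e * l)) = y - Real.log e := by
    intro e he
    have e0 := he0 e he
    rw [hy, ← Real.log_div (by positivity) (by positivity)]
    congr 1
    field_simp
  have hmain : (∑ e ∈ D, rho h e * ((h : ℝ) * Y / (e * l) *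
      (Real.log ((h : ℝ) * Y / (e * l)) ^ 2 / 2 + b1 k * Real.log ((h : ℝ) * Y / (e * l)) +
        b0 k))) / Y =
      (h / l) * (y ^ 2 / 2 * R0 + y * R1 + R2 / 2 + b1 k * (y * R0 + R1) + b0 k * R0) := by
    rw [← h43, hR1, hR2]
    rw [show (y ^ 2 / 2 * ∑ e ∈ D, rho h e / (e : ℝ) +
        y * (-∑ e ∈ D, rho h e * Real.log e / (e : ℝ)) +
        (∑ e ∈ D, rho h e * Real.log e ^ 2 / (e : ℝ)) / 2 +
        b1 k * (y * ∑ e ∈ D, rho h e / (e : ℝ) +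
          (-∑ e ∈ D, rho h e * Real.log e / (e : ℝ))) +
        b0 k * ∑ e ∈ D, rho h e / (e : ℝ)) =
        (y ^ 2 / 2 + b1 k * y + b0 k) * (∑ e ∈ D, rho h e / (e : ℝ)) +
        (-(y + b1 k)) * (∑ e ∈ D, rho h e * Real.log e / (e : ℝ)) +
        (1 / 2) * (∑ e ∈ D, rho h e * Real.log e ^ 2 / (e : ℝ)) by ring]
    rw [mul_sum, mul_sum, mul_sum, ← sum_add_distrib, ← sum_add_distrib, mul_sum, sum_div]
    apply sum_congr rfl
    intro e he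
    have e0 := he0 e he
    rw [hlogu e he]
    field_simp
    ring
  have hT : |(h / l : ℝ) * (y ^ 2 / 2 * R0 + y * R1 + R2 / 2 + b1 k * (y * R0 + R1) + b0 k * R0) -
      psi h / l * (((y - 3 / 2 * L) ^ 2 - 3 / 4 * Qf h) / 2)| ≤
      (3 / 2 * C4 + C1 * (C4 + 3)) * (psi h / l) * Em h ^ 2 * (1 + Real.log k) ^ 2 *
          (1 + |y| + L) := by
    have e1 : psi h / l = (h / l) * R0 := by rw [hR0]; field_simp
    have e2 : (h / l : ℝ) * (y ^ 2 / 2 * R0 + y * R1 + R2 / 2 + b1 k * (y * R0 + R1) + b0 k * R0) -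
        psi h / l * (((y - 3 / 2 * L) ^ 2 - 3 / 4 * Qf h) / 2) =
        (h / l) * (y * (R1 + 3 / 2 * L * R0) +
          (R2 - ((3 / 2 * L) ^ 2 - 3 / 4 * Qf h) * R0) / 2 + b1 k * (y * R0 + R1) + b0 k * R0) := by
      rw [e1]; ring
    rw [e2, e1, abs_mul, abs_of_pos (show (0 : ℝ) < h / l by positivity)]
    rw [show (3 / 2 * C4 + C1 * (C4 + 3)) * ((h / l : ℝ) * R0) * Em h ^ 2 * (1 + Real.log k) ^ 2 *
          (1 + |y| + L) = (h / l) * ((3 / 2 * C4 + C1 * (C4 + 3)) * R0 * Em h ^ 2 *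
          (1 + Real.log k) ^ 2 * (1 + |y| + L)) by ring]
    apply mul_le_mul_of_nonneg_left _ (by positivity)
    exact main_est C1 C4 R0 R1 R2 (Em h) (Qf h) y L (1 + Real.log k) (b1 k) (b0 k) hC1 hC4 hR00 hEm
      hL0 (by linarith) hb1 hb0 h41 h42
  -- the error term
  have hErr : |(∑ e ∈ D, rho h e * Vk k (h * Y / (e * l))) / Y -
      (∑ e ∈ D, rho h e * ((h : ℝ) * Y / (e * l) *
      (Real.log ((h : ℝ) * Y / (e * l)) ^ 2 / 2 + b1 k * Real.log ((h : ℝ) * Y / (e * l)) +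
        b0 k))) / Y| ≤
      C1 * C5 * (k : ℝ) ^ A1 * (h : ℝ) ^ ε * (l : ℝ) ^ (-(3 / 4) : ℝ) * Y ^ (-(1 / 4) : ℝ) := by
    rw [← sub_div, ← sum_sub_distrib, abs_div, abs_of_pos hY0]
    have e1 : |∑ e ∈ D, (rho h e * Vk k (h * Y / (e * l)) - rho h e * ((h : ℝ) * Y / (e * l) *
      (Real.log ((h : ℝ) * Y / (e * l)) ^ 2 / 2 + b1 k * Real.log ((h : ℝ) * Y / (e * l)) +
        b0 k)))| ≤ (C1 * (k : ℝ) ^ A1 * ((h : ℝ) ^ (3 / 4 : ℝ) * Y ^ (3 / 4 : ℝ) *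
          (l : ℝ) ^ (-(3 / 4) : ℝ))) * ∑ e ∈ D, |rho h e| * (e : ℝ) ^ (-(3 / 4) : ℝ) := by
      refine (abs_sum_le_sum_abs _ _).trans ?_
      rw [mul_sum]
      apply sum_le_sum
      intro e he
      have e0 := he0 e he
      rw [← mul_sub, abs_mul]
      have hu : ((h : ℝ) * Y / (e * l)) ^ (3 / 4 : ℝ) = (h : ℝ) ^ (3 / 4 : ℝ) * Y ^ (3 / 4 : ℝ) *
          (l : ℝ) ^ (-(3 / 4) : ℝ) * (e : ℝ) ^ (-(3 / 4) : ℝ) := by
        rw [Real.div_rpow (by positivity) (by positivity), Real.mul_rpow h0.le hY0.le,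
          Real.mul_rpow e0.le l0.le, Real.rpow_neg l0.le, Real.rpow_neg e0.le]
        field_simp
      calc |rho h e| * |Vk k (h * Y / (e * l)) - (h : ℝ) * Y / (e * l) *
          (Real.log ((h : ℝ) * Y / (e * l)) ^ 2 / 2 + b1 k * Real.log ((h : ℝ) * Y / (e * l)) +
            b0 k)| ≤ |rho h e| * (C1 * (k : ℝ) ^ A1 * ((h : ℝ) * Y / (e * l)) ^ (3 / 4 : ℝ)) :=
            mul_le_mul_of_nonneg_left (hV k hk _ (by positivity)) (abs_nonneg _)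
        _ = _ := by rw [hu]; ring
    have e2 : C1 * C5 * (k : ℝ) ^ A1 * (h : ℝ) ^ ε * (l : ℝ) ^ (-(3 / 4) : ℝ) *
        Y ^ (-(1 / 4) : ℝ) = ((C1 * (k : ℝ) ^ A1 * ((h : ℝ) ^ (3 / 4 : ℝ) * Y ^ (3 / 4 : ℝ) *
          (l : ℝ) ^ (-(3 / 4) : ℝ))) * (C5 * (h : ℝ) ^ (-(3 / 4) + ε))) / Y := by
      have a1 : Y ^ (-(1 / 4) : ℝ) = Y ^ (3 / 4 : ℝ) / Y := by
        rw [show (-(1 / 4) : ℝ) = 3 / 4 - 1 by norm_num, Real.rpow_sub_one hY0.ne']
      have a2 : (h : ℝ) ^ ε = (h : ℝ) ^ (3 / 4 : ℝ) * (h : ℝ) ^ (-(3 / 4) + ε) := by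
        rw [← Real.rpow_add h0]
        congr 1
        ring
      rw [a1, a2]
      ring
    rw [e2]
    apply div_le_div_of_nonneg_right _ hY0.le
    exact e1.trans (mul_le_mul_of_nonneg_left h51 (by positivity))
  -- conclusion
  have hpsi : 0 ≤ psi h / l := div_nonneg (psi_nonneg h) l0.le
  have hEm0 : 0 ≤ Em h := by linarith
  have hfin1 : 0 ≤ C1 * C5 * ((psi h / l) * Em h ^ 2 * (1 + Real.log k) ^ 2 *
          (1 + |y| + L)) := by positivity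
  have hfin2 : 0 ≤ (3 / 2 * C4 + C1 * (C4 + 3)) * ((k : ℝ) ^ A1 * (h : ℝ) ^ ε *
      (l : ℝ) ^ (-(3 / 4) : ℝ) * Y ^ (-(1 / 4) : ℝ)) := by positivity
  have htri : |(∑ e ∈ D, rho h e * Vk k (h * Y / (e * l))) / Y -
      psi h / l * (((y - 3 / 2 * L) ^ 2 - 3 / 4 * Qf h) / 2)| ≤
      |(∑ e ∈ D, rho h e * Vk k (h * Y / (e * l))) / Y -
      (∑ e ∈ D, rho h e * ((h : ℝ) * Y / (e * l) *
      (Real.log ((h : ℝ) * Y / (e * l)) ^ 2 / 2 + b1 k * Real.log ((h : ℝ) * Y / (e * l)) +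
        b0 k))) / Y| +
      |(∑ e ∈ D, rho h e * ((h : ℝ) * Y / (e * l) *
      (Real.log ((h : ℝ) * Y / (e * l)) ^ 2 / 2 + b1 k * Real.log ((h : ℝ) * Y / (e * l)) +
        b0 k))) / Y - psi h / l * (((y - 3 / 2 * L) ^ 2 - 3 / 4 * Qf h) / 2)| :=
    abs_sub_le _ _ _
  rw [hmain] at htri hErr
  refine htri.trans ?_
  refine (add_le_add hErr hT).trans ?_
  linarith

end Pool.Agent.H705R2.SMT9c
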