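import Mathlib

set_option autoImplicit false

open MeasureTheory Filter Topology Set

namespace Pool.Agent.H705R2

/-- The circle `R/Z`. -/
abbrev Circ : Type := AddCircle (1 : ℝ)

/-- A set of natural numbers has density zero. -/
def DensityZero (S : Set ℕ) : Prop :=
  Tendsto (fun M : ℕ => ((Nat.card {m : ℕ // m < M ∧ m ∈ S} : ℕ) : ℝ) / M) atTop (𝓝 0)

open Classical in
lemma natCard_eq (S : Set ℕ) (M : ℕ) :
    Nat.card {m : ℕ // m < M ∧ m ∈ S} = ((Finset.range M).filter (· ∈ S)).card := by
  have : {m : ℕ | m < M ∧ m ∈ S} = ((Finset.range M).filter (· ∈ S) : Finset ℕ) := by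
    ext m; simp
  have h2 : Nat.card {m : ℕ // m < M ∧ m ∈ S} = Nat.card ((Finset.range M).filter (· ∈ S) : Finset ℕ) := by
    exact Nat.card_congr (Equiv.setCongr this)
  rw [h2, Nat.card_eq_fintype_card, Fintype.card_coe]

lemma DensityZero.mono {S S' : Set ℕ} (h : DensityZero S') (hs : S ⊆ S') : DensityZero S := by
  classical
  unfold DensityZero at *
  refine squeeze_zero (fun M => by positivity) (fun M => ?_) h
  rw [natCard_eq, natCard_eq]
  gcongr

lemma exists_fourier_ne_one {a : Circ} (ha : addOrderOf a = 0) {n : ℤ} (hn : n ≠ 0) :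
    (fourier n a : ℂ) ≠ 1 := by
  intro h
  rw [fourier_apply] at h
  have h1 : AddCircle.toCircle (n • a) = 1 := by
    ext; simpa using h
  have h2 : n • a = 0 := by
    rw [← AddCircle.toCircle_zero] at h1
    exact AddCircle.injective_toCircle (one_ne_zero) h1
  have h3 : IsOfFinAddOrder a := isOfFinAddOrder_iff_zsmul_eq_zero.2 ⟨n, hn, h2⟩
  exact (addOrderOf_eq_zero_iff.1 ha) h3

/-- average of a function along a rotation orbit -/
noncomputable def avg (a s : Circ) (h : Circ → ℂ) (M : ℕ) : ℂ :=
  (∑ m ∈ Finset.range M, h (s + m • a)) / M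

lemma avg_fourier_tendsto {a : Circ} (ha : addOrderOf a = 0) (s : Circ) {n : ℤ} (hn : n ≠ 0) :
    Tendsto (fun M => avg a s (fun x => (fourier n x : ℂ)) M) atTop (𝓝 0) := by
  have hz := exists_fourier_ne_one ha hn
  set z : ℂ := fourier n a with hzdef
  have hnorm : ‖z‖ = 1 := by
    rw [hzdef, fourier_apply]; exact Circle.norm_coe _
  have hterm : ∀ m : ℕ, (fourier n (s + m • a) : ℂ) = fourier n s * z ^ m := by
    intro m
    rw [hzdef]
    simp only [fourier_apply]
    rw [smul_add, AddCircle.toCircle_add]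
    have : n • m • a = m • n • a := by rw [smul_comm]
    rw [this, AddCircle.toCircle_nsmul]
    simp
  have hsum : ∀ M : ℕ, ‖∑ m ∈ Finset.range M, (fourier n (s + m • a) : ℂ)‖ ≤ 2 / ‖z - 1‖ := by
    intro M
    simp_rw [hterm]
    rw [← Finset.mul_sum, geom_sum_eq hz, norm_mul, norm_div]
    have h1 : ‖(fourier n s : ℂ)‖ = 1 := by rw [fourier_apply]; exact Circle.norm_coe _
    rw [h1, one_mul]
    gcongr
    calc ‖z ^ M - 1‖ ≤ ‖z ^ M‖ + ‖(1 : ℂ)‖ := norm_sub_le _ _
      _ = 2 := by rw [norm_pow, hnorm]; norm_num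
  rw [tendsto_zero_iff_norm_tendsto_zero]
  have hlim : Tendsto (fun M : ℕ => (2 / ‖z - 1‖) / (M : ℝ)) atTop (𝓝 0) :=
    tendsto_const_div_atTop_nhds_zero_nat _
  refine squeeze_zero (fun M => norm_nonneg _) (fun M => ?_) hlim
  unfold avg
  rw [norm_div, Complex.norm_natCast]
  gcongr
  exact hsum M

lemma integral_fourier_eq_zero {n : ℤ} (hn : n ≠ 0) :
    ∫ x : Circ, (fourier n x : ℂ) = 0 := by
  have ha : ∃ a : Circ, (fourier n a : ℂ) ≠ 1 := by
    refine ⟨((1 / (2 * n) : ℝ) : Circ), ?_⟩
    rw [fourier_coe_apply]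
    have hn' : (n : ℂ) ≠ 0 := by exact_mod_cast hn
    have : 2 * (Real.pi : ℂ) * Complex.I * n * ((1 / (2 * n) : ℝ) : ℂ) / ((1 : ℝ) : ℂ) = Real.pi * Complex.I := by
      push_cast
      field_simp
    rw [this, Complex.exp_pi_mul_I]
    norm_num
  obtain ⟨a, ha⟩ := ha
  have h1 : ∫ x : Circ, (fourier n (x + a) : ℂ) = ∫ x : Circ, (fourier n x : ℂ) :=
    integral_add_right_eq_self (fun x => (fourier n x : ℂ)) a
  have h2 : ∀ x : Circ, (fourier n (x + a) : ℂ) = fourier n x * fourier n a := by
    intro x
    simp only [fourier_apply]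
    rw [smul_add, AddCircle.toCircle_add]; simp
  simp_rw [h2] at h1
  rw [integral_mul_const] at h1
  have h3 : (∫ x : Circ, (fourier n x : ℂ)) * ((fourier n a : ℂ) - 1) = 0 := by
    rw [mul_sub, h1]; ring
  rcases mul_eq_zero.1 h3 with h | h
  · exact h
  · exact absurd (sub_eq_zero.1 h) ha

lemma avg_norm_sub_le (a s : Circ) (f g : C(Circ, ℂ)) (M : ℕ) :
    ‖avg a s f M - avg a s g M‖ ≤ ‖f - g‖ := by
  unfold avg
  rcases Nat.eq_zero_or_pos M with rfl | hM
  · simp
  rw [← sub_div, ← Finset.sum_sub_distrib, norm_div, Complex.norm_natCast]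
  rw [div_le_iff₀ (by exact_mod_cast hM)]
  calc ‖∑ m ∈ Finset.range M, (f (s + m • a) - g (s + m • a))‖
      ≤ ∑ m ∈ Finset.range M, ‖f (s + m • a) - g (s + m • a)‖ := norm_sum_le _ _
    _ ≤ ∑ _m ∈ Finset.range M, ‖f - g‖ := by
        gcongr with m _
        exact (f - g).norm_coe_le_norm _
    _ = ‖f - g‖ * M := by simp [mul_comm]

/-- Weyl equidistribution for an irrational rotation. -/
theorem weyl {a : Circ} (ha : addOrderOf a = 0) (s : Circ) (h : C(Circ, ℂ)) :
    Tendsto (fun M => avg a s h M) atTop (𝓝 (∫ x : Circ, h x)) := by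
  -- the set of good functions
  have hmem : ∀ f ∈ (Submodule.span ℂ (range <| @fourier 1)),
      Tendsto (fun M => avg a s f M) atTop (𝓝 (∫ x : Circ, f x)) := by
    intro f hf
    induction hf using Submodule.span_induction with
    | mem f hf =>
      obtain ⟨n, rfl⟩ := hf
      by_cases hn : n = 0
      · subst hn
        have : ∀ M : ℕ, 0 < M → avg a s (fun x => (fourier 0 x : ℂ)) M = 1 := by
          intro M hM
          unfold avg
          simp only [fourier_zero, Finset.sum_const, Finset.card_range, nsmul_eq_mul, mul_one]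
          have : (M : ℂ) ≠ 0 := by exact_mod_cast hM.ne'
          field_simp
        have hint : ∫ x : Circ, (fourier 0 x : ℂ) = 1 := by
          simp [fourier_zero, Measure.real]
        rw [hint]
        refine Tendsto.congr' ?_ tendsto_const_nhds
        filter_upwards [eventually_gt_atTop 0] with M hM
        exact (this M hM).symm
      · rw [integral_fourier_eq_zero hn]
        exact avg_fourier_tendsto ha s hn
    | zero =>
      simp [avg]
    | add f g hf hg ihf ihg =>
      have hi : ∫ x : Circ, (f + g) x = (∫ x : Circ, f x) + ∫ x : Circ, g x := by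
        have := integral_add (μ := (volume : Measure Circ)) (f := f) (g := g)
          (f.continuous.integrable_of_hasCompactSupport (HasCompactSupport.of_compactSpace _))
          (g.continuous.integrable_of_hasCompactSupport (HasCompactSupport.of_compactSpace _))
        simpa using this
      rw [hi]
      refine (ihf.add ihg).congr (fun M => ?_)
      unfold avg
      rw [← add_div, ← Finset.sum_add_distrib]; rfl
    | smul c f hf ihf =>
      have hi : ∫ x : Circ, (c • f) x = c * (∫ x : Circ, f x) := by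
        simp [integral_const_mul]
      rw [hi]
      refine (ihf.const_mul c).congr (fun M => ?_)
      unfold avg
      simp only [ContinuousMap.coe_smul, Pi.smul_apply, smul_eq_mul]
      rw [← Finset.mul_sum, mul_div_assoc]
  rw [Metric.tendsto_atTop]
  intro ε hε
  have hcl : h ∈ (Submodule.span ℂ (range <| @fourier 1)).topologicalClosure := by
    rw [span_fourier_closure_eq_top]; trivial
  rw [← SetLike.mem_coe, Submodule.topologicalClosure_coe, Metric.mem_closure_iff] at hcl
  obtain ⟨f, hf, hfd⟩ := hcl (ε / 3) (by positivity)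
  have := Metric.tendsto_atTop.1 (hmem f hf) (ε / 3) (by positivity)
  obtain ⟨N, hN⟩ := this
  refine ⟨N, fun M hM => ?_⟩
  have h1 := hN M hM
  have h2 : ‖avg a s h M - avg a s f M‖ ≤ ‖h - f‖ := avg_norm_sub_le a s h f M
  have h3 : ‖(∫ x : Circ, f x) - ∫ x : Circ, h x‖ ≤ ‖h - f‖ := by
    rw [← integral_sub (f.continuous.integrable_of_hasCompactSupport (HasCompactSupport.of_compactSpace _))
      (h.continuous.integrable_of_hasCompactSupport (HasCompactSupport.of_compactSpace _))]
    calc ‖∫ x : Circ, (f x - h x)‖ ≤ ‖h - f‖ * (volume : Measure Circ).real univ := by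
          apply norm_integral_le_of_norm_le_const
          filter_upwards with x
          rw [norm_sub_rev]
          exact (h - f).norm_coe_le_norm x
      _ = ‖h - f‖ := by simp [Measure.real]
  have h4 : ‖h - f‖ < ε / 3 := by rw [← dist_eq_norm]; exact hfd
  calc dist (avg a s h M) (∫ x : Circ, h x)
      ≤ dist (avg a s h M) (avg a s f M) + dist (avg a s f M) (∫ x : Circ, f x)
        + dist (∫ x : Circ, f x) (∫ x : Circ, h x) := dist_triangle4 _ _ _ _
    _ < ε / 3 + ε / 3 + ε / 3 := by
        rw [dist_eq_norm, dist_eq_norm (∫ x : Circ, f x)]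
        linarith
    _ = ε := by ring

/-- Visits of an irrational rotation to a closed null set have density zero. -/
theorem density_zero_of_closed_null {a : Circ} (ha : addOrderOf a = 0) (s : Circ)
    {N : Set Circ} (hN : IsClosed N) (hN0 : volume N = 0) :
    DensityZero {m : ℕ | s + m • a ∈ N} := by
  classical
  unfold DensityZero
  rw [Metric.tendsto_atTop]
  intro ε hε
  -- open neighbourhood of small measure
  obtain ⟨U, hNU, hUo, hUv⟩ : ∃ U ⊇ N, IsOpen U ∧ volume U < ENNReal.ofReal (ε / 2) :=
    N.exists_isOpen_lt_of_lt _ (by rw [hN0]; exact ENNReal.ofReal_pos.2 (by positivity))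
  obtain ⟨g, hg0, hg1, hg01⟩ := exists_continuous_zero_one_of_isClosed hUo.isClosed_compl hN
    (by rw [disjoint_compl_left_iff_subset]; exact hNU)
  let h : C(Circ, ℂ) := ⟨fun x => (g x : ℂ), by fun_prop⟩
  have hint : (∫ x : Circ, h x).re ≤ ε / 2 := by
    have h1 : ∫ x : Circ, h x = ((∫ x : Circ, g x : ℝ) : ℂ) := by
      simp only [h, ContinuousMap.coe_mk]
      exact integral_ofReal
    rw [h1, Complex.ofReal_re]
    have h2 : ∫ x : Circ, g x ≤ ∫ x : Circ, U.indicator (fun _ => (1 : ℝ)) x := by
      apply integral_mono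
      · exact g.continuous.integrable_of_hasCompactSupport (HasCompactSupport.of_compactSpace _)
      · exact (integrable_indicator_iff hUo.measurableSet).2 (integrableOn_const (by simp) )
      · intro x
        by_cases hx : x ∈ U
        · simp only [hx, indicator_of_mem]; exact (hg01 x).2
        · simp only [hx, not_false_eq_true, indicator_of_notMem]
          exact le_of_eq (hg0 hx)
    rw [integral_indicator hUo.measurableSet] at h2
    simp only [integral_const, MeasurableSet.univ, measureReal_restrict_apply, univ_inter, smul_eq_mul, mul_one] at h2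
    refine h2.trans ?_
    rw [Measure.real]
    exact ENNReal.toReal_le_of_le_ofReal (by positivity) hUv.le
  have hw := weyl ha s h
  have hw' : Tendsto (fun M => (avg a s h M).re) atTop (𝓝 (∫ x : Circ, h x).re) :=
    (Complex.continuous_re.tendsto _).comp hw
  have hev : ∀ᶠ M in atTop, (avg a s h M).re < ε := by
    apply hw'.eventually_lt_const
    linarith
  obtain ⟨M₀, hM₀⟩ := eventually_atTop.1 hev
  refine ⟨M₀, fun M hM => ?_⟩
  rw [Real.dist_eq, sub_zero, abs_of_nonneg (by positivity)]
  refine lt_of_le_of_lt ?_ (hM₀ M hM)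
  unfold avg
  rw [natCard_eq]
  have : (∑ m ∈ Finset.range M, h (s + m • a)) / (M : ℂ) = (((∑ m ∈ Finset.range M, g (s + m • a)) / M : ℝ) : ℂ) := by
    push_cast; rfl
  rw [this, Complex.ofReal_re]
  gcongr
  rw [Finset.card_filter]
  push_cast
  gcongr with m _
  split_ifs with hm
  · have := hg1 hm
    simp only [Pi.one_apply] at this
    rw [this]
  · exact (hg01 _).1

end Pool.Agent.H705R2
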