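import Mathlib
import Pool.Agent.H705R2.Weyl

set_option autoImplicit false

open MeasureTheory Filter Topology Set

namespace Pool.Agent.H705R2

/-- Multiplicative independence of two naturals. -/
def MulIndep (b c : ℕ) : Prop := ∀ m n : ℕ, b ^ m = c ^ n → m = 0 ∧ n = 0

lemma theta_order {b c : ℕ} (hb : 2 ≤ b) (hc : 2 ≤ c) (h : MulIndep b c) :
    addOrderOf ((Real.logb b c : ℝ) : Circ) = 0 := by
  rw [addOrderOf_eq_zero_iff, isOfFinAddOrder_iff_nsmul_eq_zero]
  rintro ⟨n, hn, hn0⟩
  rw [← AddCircle.coe_nsmul, AddCircle.coe_eq_zero_iff] at hn0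
  obtain ⟨k, hk⟩ := hn0
  simp only [zsmul_eq_mul, mul_one, nsmul_eq_mul] at hk
  have hb1 : (1 : ℝ) < b := by exact_mod_cast (by omega : 1 < b)
  have hc1 : (1 : ℝ) < c := by exact_mod_cast (by omega : 1 < c)
  have hpos : 0 < Real.logb b c := Real.logb_pos hb1 hc1
  have hkpos : (0 : ℝ) ≤ k := by rw [hk]; positivity
  have hk0 : 0 ≤ k := by exact_mod_cast hkpos
  obtain ⟨l, rfl⟩ := Int.eq_ofNat_of_zero_le hk0
  have h1 : (b : ℝ) ^ l = (c : ℝ) ^ n := by
    have h2 : Real.logb b ((b : ℝ) ^ l) = Real.logb b ((c : ℝ) ^ n) := by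
      rw [Real.logb_pow, Real.logb_pow, Real.logb_self_eq_one hb1, mul_one]
      exact_mod_cast hk
    exact Real.logb_injOn_pos hb1 (by simp; positivity) (by simp; positivity) h2
  have h3 : b ^ l = c ^ n := by exact_mod_cast h1
  exact hn.ne' (h l n h3).2

/-- points whose `b`-orbit avoids `J` -/
def avoid (b : ℕ) (J : Set Circ) : Set Circ := {x | ∀ j : ℕ, b ^ j • x ∉ J}

lemma isClosed_avoid (b : ℕ) {J : Set Circ} (hJ : IsOpen J) : IsClosed (avoid b J) := by
  unfold avoid
  simp only [ofPred_forall]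
  exact isClosed_iInter fun j => hJ.isClosed_compl.preimage (continuous_nsmul _)

lemma volume_avoid {b : ℕ} (hb : 2 ≤ b) {J : Set Circ} (hJ : IsOpen J) (hJn : J.Nonempty) :
    volume (avoid b J) = 0 := by
  have herg : Ergodic (fun y : Circ => b • y) volume := AddCircle.ergodic_nsmul (by omega)
  have hm : MeasurableSet (avoid b J) := (isClosed_avoid b hJ).measurableSet
  have hle : avoid b J ⊆ (fun y : Circ => b • y) ⁻¹' (avoid b J) := by
    intro x hx j
    have := hx (j + 1)
    rwa [pow_succ, mul_smul] at this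
  have h := herg.ae_empty_or_univ_of_ae_le_preimage hm.nullMeasurableSet
    (Filter.Eventually.of_forall hle)
  rcases h with h | h
  · exact ae_eq_empty.1 h
  · exfalso
    have h1 : volume (avoid b J)ᶜ = 0 := by
      have := ae_eq_univ.1 h
      exact this
    have h2 : J ⊆ (avoid b J)ᶜ := by
      intro x hx hx'
      exact hx' 0 (by simpa using hx)
    have h3 : volume J = 0 := measure_mono_null h2 h1
    exact (hJ.measure_pos volume hJn).ne' h3

lemma volume_preimage_coe {A : Set Circ} (hA : MeasurableSet A) (h : volume A = 0) :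
    volume ((fun x : ℝ => (x : Circ)) ⁻¹' A) = 0 := by
  have hcover : ((fun x : ℝ => (x : Circ)) ⁻¹' A)
      ⊆ ⋃ n : ℤ, ((fun x : ℝ => (x : Circ)) ⁻¹' A) ∩ Ioc (n : ℝ) (n + 1) := by
    intro x hx
    rw [mem_iUnion]
    refine ⟨⌈x⌉ - 1, hx, ?_, ?_⟩
    · push_cast; linarith [Int.ceil_lt_add_one x]
    · push_cast; linarith [Int.le_ceil x]
  refine measure_mono_null hcover (measure_iUnion_null fun n => ?_)
  have hp := UnitAddCircle.measurePreserving_mk (n : ℝ)
  have := hp.measure_preimage hA.nullMeasurableSet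
  rw [Measure.restrict_apply (hp.measurable hA)] at this
  rw [← h]
  exact this

/-- the exceptional set in the logarithmic coordinate -/
def Nset (b : ℕ) (R : ℝ) (J : Set Circ) : Set ℝ :=
  {s | ∀ j : ℤ, ((R * (b : ℝ) ^ (s + (j : ℝ)) : ℝ) : Circ) ∉ J}

lemma isClosed_Nset {b : ℕ} (hb : 2 ≤ b) (R : ℝ) {J : Set Circ} (hJ : IsOpen J) :
    IsClosed (Nset b R J) := by
  unfold Nset
  simp only [ofPred_forall]
  refine isClosed_iInter fun j => hJ.isClosed_compl.preimage ?_
  have hb0 : (b : ℝ) ≠ 0 := by positivity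
  refine (AddCircle.continuous_mk' 1).comp ?_
  refine continuous_const.mul ?_
  exact (Real.continuous_const_rpow hb0).comp (by fun_prop)

lemma volume_Nset {b : ℕ} (hb : 2 ≤ b) {R : ℝ} (hR : R ≠ 0) {J : Set Circ} (hJ : IsOpen J)
    (hJn : J.Nonempty) : volume (Nset b R J) = 0 := by
  have hb1 : (1 : ℝ) < b := by exact_mod_cast (by omega : 1 < b)
  have hb0 : (0 : ℝ) < b := by linarith
  set A : Set ℝ := (fun x : ℝ => (x : Circ)) ⁻¹' (avoid b J) with hA
  have hA0 : volume A = 0 :=
    volume_preimage_coe (isClosed_avoid b hJ).measurableSet (volume_avoid hb hJ hJn)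
  have hsub : Nset b R J ⊆ (fun y : ℝ => Real.logb b (y / R)) '' (A ∩ {y | 0 < y / R}) := by
    intro s hs
    refine ⟨R * (b : ℝ) ^ s, ⟨?_, ?_⟩, ?_⟩
    · intro j
      have := hs j
      have h2 : b ^ j • ((R * (b : ℝ) ^ s : ℝ) : Circ) = ((R * (b : ℝ) ^ (s + ((j : ℤ) : ℝ)) : ℝ) : Circ) := by
        rw [← AddCircle.coe_nsmul]
        congr 1
        rw [nsmul_eq_mul, Real.rpow_add hb0]
        push_cast
        rw [Real.rpow_natCast]; ring
      rw [h2]; exact this
    · simp only [mem_ofPred_eq]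
      rw [mul_div_assoc, mul_comm, div_mul_cancel₀ _ hR]
      positivity
    · simp only
      rw [mul_div_assoc, mul_comm, div_mul_cancel₀ _ hR]
      exact Real.logb_rpow hb0 hb1.ne'
  refine measure_mono_null hsub ?_
  refine MeasureTheory.addHaar_image_eq_zero_of_differentiableOn_of_addHaar_eq_zero volume ?_
    (measure_mono_null inter_subset_left hA0)
  intro y hy
  have hy' : 0 < y / R := hy.2
  refine DifferentiableAt.differentiableWithinAt ?_
  unfold Real.logb
  refine DifferentiableAt.div_const ?_ _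
  refine DifferentiableAt.log ?_ hy'.ne'
  exact differentiableAt_id.div_const _

/-- Lemma A. -/
theorem lemmaA {b c : ℕ} (hb : 2 ≤ b) (hc : 2 ≤ c) (h : MulIndep b c) {R : ℝ} (hR : R ≠ 0)
    {J : Set Circ} (hJ : IsOpen J) (hJn : J.Nonempty) :
    DensityZero {m : ℕ | ∀ j : ℤ, ((R * (c : ℝ) ^ m * (b : ℝ) ^ j : ℝ) : Circ) ∉ J} := by
  have hb1 : (1 : ℝ) < b := by exact_mod_cast (by omega : 1 < b)
  have hb0 : (0 : ℝ) < b := by linarith
  have hc0 : (0 : ℝ) < c := by positivity
  set π : ℝ → Circ := fun x => (x : Circ) with hπ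
  set N := Nset b R J with hN
  have hNc : IsClosed N := isClosed_Nset hb R hJ
  have hper : ∀ s : ℝ, ∀ n : ℤ, s ∈ N → s + n ∈ N := by
    intro s n hs j
    have := hs (n + j)
    push_cast at this
    rwa [← add_assoc] at this
  have hpre : π ⁻¹' (π '' N) = N := by
    apply Subset.antisymm
    · rintro s ⟨s', hs', hss⟩
      simp only [hπ] at hss
      have h0 : ((s - s' : ℝ) : Circ) = 0 := by
        rw [AddCircle.coe_sub, hss, sub_self]
      rw [AddCircle.coe_eq_zero_iff] at h0
      obtain ⟨n, hn⟩ := h0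
      simp only [zsmul_eq_mul, mul_one] at hn
      have : s = s' + n := by linarith
      rw [this]; exact hper s' n hs'
    · exact subset_preimage_image π N
  have hclosed : IsClosed (π '' N) := by
    have hq : IsQuotientMap π :=
      QuotientAddGroup.isQuotientMap_mk (N := AddSubgroup.zmultiples (1 : ℝ))
    rw [← hq.isClosed_preimage, hpre]; exact hNc
  have hvol : volume (π '' N) = 0 := by
    have hp := UnitAddCircle.measurePreserving_mk (0 : ℝ)
    have := hp.measure_preimage hclosed.measurableSet.nullMeasurableSet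
    rw [← this]
    refine measure_mono_null (t := N) ?_ ?_ |>.trans ?_ <;> try rfl
    · intro s hs
      have : s ∈ π ⁻¹' (π '' N) := hs
      rwa [hpre] at this
    · exact le_antisymm ((Measure.restrict_apply_le _ _).trans (volume_Nset hb hR hJ hJn).le) bot_le
  have hd := density_zero_of_closed_null (theta_order hb hc h) 0 hclosed hvol
  refine hd.mono ?_
  intro m hm
  simp only [mem_ofPred_eq] at hm ⊢
  rw [zero_add, ← AddCircle.coe_nsmul, nsmul_eq_mul]
  refine ⟨(m : ℝ) * Real.logb b c, ?_, rfl⟩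
  intro j
  have h1 := hm j
  have h2 : R * (b : ℝ) ^ ((m : ℝ) * Real.logb b c + (j : ℝ)) = R * (c : ℝ) ^ m * (b : ℝ) ^ j := by
    rw [Real.rpow_add hb0, mul_comm (m : ℝ), Real.rpow_mul hb0.le, Real.rpow_logb hb0 hb1.ne' hc0,
      Real.rpow_natCast, Real.rpow_intCast]
    ring
  rw [h2]; exact h1

end Pool.Agent.H705R2
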