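import Mathlib
import Pool.Agent.H705R2.Rot

set_option autoImplicit false

open MeasureTheory Filter Topology Set

namespace Pool.Agent.H705R2

/-- Representative of a point of the circle of absolute value equal to its norm. -/
lemma exists_rep (u : Circ) : ∃ r : ℝ, (r : Circ) = u ∧ |r| = ‖u‖ ∧ |r| ≤ 1 / 2 := by
  obtain ⟨x, rfl⟩ := QuotientAddGroup.mk_surjective u
  refine ⟨x - round x, ?_, ?_, ?_⟩
  · have : ((x - round x : ℝ) : Circ) = (x : Circ) - ((round x : ℝ) : Circ) := AddCircle.coe_sub _ _ _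
    rw [this]
    have h2 : (((round x : ℤ) : ℝ) : Circ) = 0 := by
      rw [AddCircle.coe_eq_zero_iff]; exact ⟨round x, by simp⟩
    rw [h2, sub_zero]
  · exact (UnitAddCircle.norm_eq (x := x)).symm
  · exact abs_sub_round x

/-- Lemma B: a closed forward invariant set accumulating at `0` contains a two sided
geometric progression. -/
theorem lemmaB {b : ℕ} (hb : 2 ≤ b) {A : Set Circ} (hA : IsClosed A)
    (hinv : ∀ x ∈ A, b • x ∈ A) (hacc : ∀ ε > 0, ∃ x ∈ A, x ≠ 0 ∧ ‖x‖ < ε) :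
    ∃ R : ℝ, R ≠ 0 ∧ ∀ j : ℤ, ((R * (b : ℝ) ^ j : ℝ) : Circ) ∈ A := by
  have hb1 : (1 : ℝ) < b := by exact_mod_cast (by omega : 1 < b)
  have hb0 : (0 : ℝ) < b := by linarith
  have hpow : ∀ k : ℕ, ∀ x ∈ A, b ^ k • x ∈ A := by
    intro k
    induction k with
    | zero => intro x hx; simpa using hx
    | succ k ih =>
      intro x hx
      rw [pow_succ', mul_smul]; exact hinv _ (ih x hx)
  -- choose representatives
  have key : ∀ n : ℕ, ∃ r : ℝ, ∃ k : ℕ, (r : Circ) ∈ A ∧ n ≤ k ∧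
      1 / (4 * b) ≤ |r * (b : ℝ) ^ k| ∧ |r * (b : ℝ) ^ k| ≤ 1 / 4 := by
    intro n
    obtain ⟨x, hxA, hx0, hxn⟩ := hacc (1 / (4 * (b : ℝ) ^ (n + 1))) (by positivity)
    obtain ⟨r, hr, hrn, -⟩ := exists_rep x
    have hr0 : 0 < |r| := by
      rw [hrn]; exact norm_pos_iff.2 hx0
    have hle : 1 ≤ 1 / (4 * |r|) := by
      rw [le_div_iff₀ (by positivity), one_mul]
      have h1 : |r| < 1 / (4 * (b : ℝ) ^ (n + 1)) := by rw [hrn]; exact hxn
      have h2 : (1 : ℝ) ≤ (b : ℝ) ^ (n + 1) := one_le_pow₀ hb1.le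
      have h3 : 1 / (4 * (b : ℝ) ^ (n + 1)) ≤ 1 / 4 := by
        apply one_div_le_one_div_of_le (by norm_num); linarith
      linarith
    obtain ⟨k, hk1, hk2⟩ := exists_nat_pow_near hle hb1
    refine ⟨r, k, by rw [hr]; exact hxA, ?_, ?_, ?_⟩
    · by_contra hkn
      push Not at hkn
      have h1 : (b : ℝ) ^ (k + 1) ≤ (b : ℝ) ^ (n + 1) := pow_le_pow_right₀ hb1.le (by omega)
      have h2 : |r| < 1 / (4 * (b : ℝ) ^ (n + 1)) := by rw [hrn]; exact hxn
      rw [lt_div_iff₀ (by positivity)] at h2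
      rw [div_lt_iff₀ (by positivity)] at hk2
      nlinarith
    · rw [abs_mul, abs_of_pos (by positivity : (0 : ℝ) < (b : ℝ) ^ k)]
      rw [div_lt_iff₀ (by positivity)] at hk2
      rw [div_le_iff₀ (by positivity)]
      rw [pow_succ] at hk2
      nlinarith
    · rw [abs_mul, abs_of_pos (by positivity : (0 : ℝ) < (b : ℝ) ^ k)]
      rw [le_div_iff₀ (by positivity)] at hk1
      linarith
  choose r k hrA hkn hlo hhi using key
  set S : ℕ → ℝ := fun n => r n * (b : ℝ) ^ (k n) with hS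
  have hScomp : ∀ n, S n ∈ Icc (-(1 / 4) : ℝ) (1 / 4) := fun n => by
    have := hhi n
    rw [abs_le] at this
    exact this
  obtain ⟨R, -, φ, hφ, hlim⟩ := isCompact_Icc.tendsto_subseq hScomp
  refine ⟨R, ?_, ?_⟩
  · have h1 : Tendsto (fun n => |S (φ n)|) atTop (𝓝 |R|) := hlim.abs
    have h2 : 1 / (4 * (b : ℝ)) ≤ |R| := ge_of_tendsto' h1 (fun n => hlo (φ n))
    intro h0
    rw [h0, abs_zero] at h2
    have : (0 : ℝ) < 1 / (4 * b) := by positivity
    linarith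
  · intro j
    have h1 : Tendsto (fun n => ((S (φ n) * (b : ℝ) ^ j : ℝ) : Circ)) atTop
        (𝓝 ((R * (b : ℝ) ^ j : ℝ) : Circ)) := by
      exact ((AddCircle.continuous_mk' (1 : ℝ)).tendsto _).comp (hlim.mul_const _)
    refine hA.mem_of_tendsto h1 ?_
    filter_upwards [eventually_ge_atTop j.natAbs] with n hn
    have hk : j.natAbs ≤ k (φ n) := hn.trans ((hφ.id_le n).trans (hkn (φ n)))
    obtain ⟨l, hl⟩ : ∃ l : ℕ, (k (φ n) : ℤ) + j = l := by
      have : 0 ≤ (k (φ n) : ℤ) + j := by omega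
      exact ⟨_, (Int.toNat_of_nonneg this).symm⟩
    have h2 : S (φ n) * (b : ℝ) ^ j = (b ^ l : ℕ) • r (φ n) := by
      simp only [hS, nsmul_eq_mul]
      push_cast
      rw [mul_assoc, ← zpow_natCast (b : ℝ) (k (φ n)), ← zpow_add₀ hb0.ne', hl, zpow_natCast]
      ring
    rw [h2, AddCircle.coe_nsmul]
    exact hpow l _ (hrA _)

/-- Lemma C. -/
theorem lemmaC {b c : ℕ} (hb : 2 ≤ b) (hc : 2 ≤ c) (h : MulIndep b c) {A : Set Circ}
    (hA : IsClosed A) (hinv : ∀ x ∈ A, b • x ∈ A) (hacc : ∀ ε > 0, ∃ x ∈ A, x ≠ 0 ∧ ‖x‖ < ε)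
    {J : Set Circ} (hJ : IsOpen J) (hJn : J.Nonempty) :
    DensityZero {m : ℕ | ∀ x ∈ A, c ^ m • x ∉ J} := by
  obtain ⟨R, hR, hRA⟩ := lemmaB hb hA hinv hacc
  refine (lemmaA hb hc h hR hJ hJn).mono ?_
  intro m hm j
  have h1 := hm _ (hRA j)
  rw [← AddCircle.coe_nsmul] at h1
  have h2 : (c ^ m : ℕ) • (R * (b : ℝ) ^ j) = R * (c : ℝ) ^ m * (b : ℝ) ^ j := by
    rw [nsmul_eq_mul]; push_cast; ring
  rw [h2] at h1
  exact h1

end Pool.Agent.H705R2
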