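import Mathlib
import Pool.Agent.H705R2.Weyl

set_option autoImplicit false

open MeasureTheory Filter Topology Set

namespace Pool.Agent.H705R2

lemma DensityZero.shift {S : Set ℕ} (h : DensityZero S) (m₀ : ℕ) :
    DensityZero {m : ℕ | m < m₀ ∨ m - m₀ ∈ S} := by
  classical
  obtain ⟨T, hT⟩ : ∃ T : Set ℕ, T = {m : ℕ | m < m₀ ∨ m - m₀ ∈ S} := ⟨_, rfl⟩
  rw [← hT]
  unfold DensityZero at *
  have h1 : Tendsto (fun M : ℕ => (m₀ : ℝ) / M) atTop (𝓝 0) :=
    tendsto_const_div_atTop_nhds_zero_nat _
  have h2 := h1.add h
  rw [add_zero] at h2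
  refine squeeze_zero (fun M => by positivity) (fun M => ?_) h2
  rw [natCard_eq, natCard_eq, ← add_div]
  gcongr
  have hsub : (Finset.range M).filter (· ∈ T) ⊆
      Finset.range m₀ ∪ ((Finset.range M).filter (· ∈ S)).image (· + m₀) := by
    intro m hm
    simp only [hT, Finset.mem_filter, Finset.mem_range, mem_ofPred_eq] at hm
    simp only [Finset.mem_union, Finset.mem_range, Finset.mem_image, Finset.mem_filter]
    by_cases hmm : m < m₀
    · left; exact hmm
    · right
      refine ⟨m - m₀, ⟨by omega, ?_⟩, by omega⟩
      rcases hm.2 with h | h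
      · exact absurd h hmm
      · exact h
  calc (((Finset.range M).filter (· ∈ T)).card : ℝ)
      ≤ ((Finset.range m₀ ∪ ((Finset.range M).filter (· ∈ S)).image (· + m₀)).card : ℝ) := by
        exact_mod_cast Finset.card_le_card hsub
    _ ≤ (m₀ : ℝ) + (((Finset.range M).filter (· ∈ S)).card : ℝ) := by
        have h3 := Finset.card_union_le (Finset.range m₀) (((Finset.range M).filter (· ∈ S)).image (· + m₀))
        have h4 : (((Finset.range M).filter (· ∈ S)).image (· + m₀)).card ≤ ((Finset.range M).filter (· ∈ S)).card :=
          Finset.card_image_le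
        rw [Finset.card_range] at h3
        exact_mod_cast h3.trans (by omega)

/-- A set all of whose points return to it with density zero is null. -/
theorem recur {X : Type*} [MeasurableSpace X] {μ : Measure X} [IsProbabilityMeasure μ] {f : X → X}
    (hf : MeasurePreserving f μ μ) {B : Set X} (hB : MeasurableSet B)
    (h : ∀ x ∈ B, DensityZero {m : ℕ | f^[m] x ∈ B}) : μ B = 0 := by
  classical
  have hall : ∀ x, DensityZero {m : ℕ | f^[m] x ∈ B} := by
    intro x
    by_cases hx : ∃ m₀, f^[m₀] x ∈ B
    · obtain ⟨m₀, hm₀⟩ := hx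
      refine ((h _ hm₀).shift m₀).mono ?_
      intro m hm
      simp only [mem_ofPred_eq] at hm ⊢
      by_cases hmm : m < m₀
      · left; exact hmm
      · right
        rw [← Function.iterate_add_apply, Nat.sub_add_cancel (by omega)]; exact hm
    · push Not at hx
      have : {m : ℕ | f^[m] x ∈ B} = ∅ := by
        ext m; simp [hx m]
      rw [this]
      unfold DensityZero
      simp
  set F : ℕ → X → ℝ := fun M x => (∑ m ∈ Finset.range M, B.indicator (fun _ => (1 : ℝ)) (f^[m] x)) / M with hF
  have hFcard : ∀ M x, F M x = ((Nat.card {m : ℕ // m < M ∧ m ∈ {m : ℕ | f^[m] x ∈ B}} : ℕ) : ℝ) / M := by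
    intro M x
    rw [natCard_eq, Finset.card_filter]
    simp only [hF]
    push_cast
    congr 1
  have hlim : ∀ x, Tendsto (fun M => F M x) atTop (𝓝 0) := by
    intro x
    have := hall x
    unfold DensityZero at this
    refine this.congr (fun M => ?_)
    rw [hFcard]
  have hmeas : ∀ M, Measurable (F M) := by
    intro M
    refine Measurable.div_const ?_ _
    refine Finset.measurable_sum _ fun m _ => ?_
    exact (measurable_const.indicator hB).comp (hf.measurable.iterate m)
  have hnn : ∀ M x, 0 ≤ F M x := by
    intro M x; rw [hFcard]; positivity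
  have hle : ∀ M x, F M x ≤ 1 := by
    intro M x
    rw [hFcard, natCard_eq]
    rcases Nat.eq_zero_or_pos M with rfl | hM
    · simp
    rw [div_le_one (by exact_mod_cast hM)]
    have := Finset.card_filter_le (Finset.range M) (· ∈ {m : ℕ | f^[m] x ∈ B})
    rw [Finset.card_range] at this
    exact_mod_cast this
  have hint : Tendsto (fun M => ∫ x, F M x ∂μ) atTop (𝓝 (∫ _x, (0 : ℝ) ∂μ)) := by
    refine tendsto_integral_of_dominated_convergence (fun _ => (1 : ℝ))
      (fun M => (hmeas M).aestronglyMeasurable) (integrable_const _) ?_ ?_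
    · intro M
      filter_upwards with x
      rw [Real.norm_eq_abs, abs_of_nonneg (hnn M x)]; exact hle M x
    · filter_upwards with x using hlim x
  have hval : ∀ M : ℕ, 0 < M → ∫ x, F M x ∂μ = μ.real B := by
    intro M hM
    simp only [hF]
    rw [integral_div, integral_finsetSum]
    · have : ∀ m ∈ Finset.range M, ∫ x, B.indicator (fun _ => (1 : ℝ)) (f^[m] x) ∂μ = μ.real B := by
        intro m _
        have hfm := hf.iterate m
        have h1 : (fun x => B.indicator (fun _ => (1 : ℝ)) (f^[m] x)) =
            (f^[m] ⁻¹' B).indicator (fun _ => (1 : ℝ)) := by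
          ext x; rfl
        rw [h1, integral_indicator (hfm.measurable hB)]
        simp only [integral_const, measureReal_restrict_apply MeasurableSet.univ, univ_inter, smul_eq_mul, mul_one]
        rw [Measure.real, Measure.real, hfm.measure_preimage hB.nullMeasurableSet]
      rw [Finset.sum_congr rfl this, Finset.sum_const, Finset.card_range, nsmul_eq_mul]
      have : (M : ℝ) ≠ 0 := by positivity
      field_simp
    · intro m _
      refine Integrable.mono' (integrable_const (1 : ℝ))
        (((measurable_const.indicator hB).comp (hf.measurable.iterate m)).aestronglyMeasurable) ?_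
      filter_upwards with x
      by_cases hx : f^[m] x ∈ B <;> simp [hx]
  rw [integral_zero] at hint
  have h0 : μ.real B = 0 := by
    refine tendsto_nhds_unique ?_ hint
    refine Tendsto.congr' ?_ tendsto_const_nhds
    filter_upwards [eventually_gt_atTop 0] with M hM
    rw [hval M hM]
  rw [Measure.real, ENNReal.toReal_eq_zero_iff] at h0
  rcases h0 with h0 | h0
  · exact h0
  · exact absurd h0 (measure_ne_top _ _)

end Pool.Agent.H705R2
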