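import Mathlib
import Pool.Agent.H705R2.Accum
import Pool.Agent.H705R2.Recur

set_option autoImplicit false

open MeasureTheory Filter Topology Set

namespace Pool.Agent.H705R2

/-- Closure of the forward orbit of `x` under multiplication by `p`. -/
def K (p : ℕ) (x : Circ) : Set Circ := closure (range fun n : ℕ => p ^ n • x)

lemma isClosed_K (p : ℕ) (x : Circ) : IsClosed (K p x) := isClosed_closure

lemma pow_smul_mem_K (p : ℕ) (x : Circ) (n : ℕ) : p ^ n • x ∈ K p x := subset_closure ⟨n, rfl⟩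

lemma K_nonempty (p : ℕ) (x : Circ) : (K p x).Nonempty := ⟨_, pow_smul_mem_K p x 0⟩

lemma smul_mem_K (p : ℕ) {x y : Circ} (hy : y ∈ K p x) : p • y ∈ K p x := by
  refine map_mem_closure (continuous_nsmul p) hy ?_
  rintro _ ⟨n, rfl⟩
  exact ⟨n + 1, by simp only [pow_succ', mul_smul]⟩

lemma pow_smul_mem_K' (p : ℕ) {x y : Circ} (hy : y ∈ K p x) (n : ℕ) : p ^ n • y ∈ K p x := by
  induction n with
  | zero => simpa using hy
  | succ n ih => rw [pow_succ', mul_smul]; exact smul_mem_K p ih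

lemma smul_mem_K_smul (p c : ℕ) {x y : Circ} (hy : y ∈ K p x) : c • y ∈ K p (c • x) := by
  refine map_mem_closure (continuous_nsmul c) hy ?_
  rintro _ ⟨n, rfl⟩
  exact ⟨n, by simp only [smul_smul, mul_comm]⟩

/-- Measurability lemma. -/
theorem measurable_exists {Z : Type*} [TopologicalSpace Z] [CompactSpace Z] [SequentialSpace Z]
    [FirstCountableTopology Z] (p : ℕ) {E : Set Z} (hE : IsClosed E) {ι : Type*} [Finite ι]
    (h : ι → Z → Circ) (hh : ∀ i, Continuous (h i)) :
    MeasurableSet {x : Circ | ∃ z ∈ E, ∀ i, h i z ∈ K p x} := by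
  have heq : {x : Circ | ∃ z ∈ E, ∀ i, h i z ∈ K p x} =
      ⋂ n : ℕ, ⋃ a : ι → ℕ, {x : Circ | ∃ z ∈ E, ∀ i, dist (h i z) (p ^ a i • x) < 1 / ((n : ℝ) + 1)} := by
    ext x
    simp only [mem_ofPred_eq, mem_iInter, mem_iUnion]
    constructor
    · rintro ⟨z, hz, hzK⟩ n
      have hpos : (0 : ℝ) < 1 / ((n : ℝ) + 1) := by positivity
      have h1 : ∀ i, ∃ k : ℕ, dist (h i z) (p ^ k • x) < 1 / ((n : ℝ) + 1) := by
        intro i
        obtain ⟨_, ⟨k, rfl⟩, hk⟩ := Metric.mem_closure_iff.1 (hzK i) _ hpos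
        exact ⟨k, hk⟩
      choose a ha using h1
      exact ⟨a, z, hz, ha⟩
    · intro H
      choose a z hz ha using H
      obtain ⟨w, hw, φ, hφ, hlim⟩ := hE.isCompact.tendsto_subseq hz
      refine ⟨w, hw, fun i => ?_⟩
      refine Metric.mem_closure_iff.2 fun ε hε => ?_
      have hc : Tendsto (fun n => h i (z (φ n))) atTop (𝓝 (h i w)) := ((hh i).tendsto w).comp hlim
      have h1 : ∀ᶠ n in atTop, dist (h i (z (φ n))) (h i w) < ε / 2 :=
        (Metric.tendsto_nhds.1 hc) (ε / 2) (by positivity)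
      have h2 : Tendsto (fun n : ℕ => 1 / ((n : ℝ) + 1)) atTop (𝓝 0) :=
        tendsto_one_div_add_atTop_nhds_zero_nat
      have h3 : ∀ᶠ n in atTop, 1 / (((φ n : ℕ) : ℝ) + 1) < ε / 2 :=
        (h2.comp hφ.tendsto_atTop).eventually_lt_const (by positivity)
      obtain ⟨n, hn1, hn2⟩ := (h1.and h3).exists
      refine ⟨_, ⟨a (φ n) i, rfl⟩, ?_⟩
      have h4 := ha (φ n) i
      calc dist (h i w) (p ^ a (φ n) i • x)
          ≤ dist (h i w) (h i (z (φ n))) + dist (h i (z (φ n))) (p ^ a (φ n) i • x) := dist_triangle _ _ _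
        _ < ε / 2 + ε / 2 := by
            rw [dist_comm (h i w)]
            have := h4.trans hn2
            linarith
        _ = ε := by ring
  rw [heq]
  refine MeasurableSet.iInter fun n => MeasurableSet.iUnion fun a => IsOpen.measurableSet ?_
  have h1 : {x : Circ | ∃ z ∈ E, ∀ i, dist (h i z) (p ^ a i • x) < 1 / ((n : ℝ) + 1)} =
      ⋃ z ∈ E, ⋂ i, {x : Circ | dist (h i z) (p ^ a i • x) < 1 / ((n : ℝ) + 1)} := by
    ext x; simp
  rw [h1]
  refine isOpen_biUnion fun z _ => isOpen_iInter_of_finite fun i => ?_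
  exact isOpen_lt (by fun_prop) continuous_const

lemma torsion_countable : {w : Circ | IsOfFinAddOrder w}.Countable := by
  have : {w : Circ | IsOfFinAddOrder w} = ⋃ n : ℕ, {w : Circ | addOrderOf w = n + 1} := by
    ext w
    simp only [mem_ofPred_eq, mem_iUnion]
    rw [← addOrderOf_pos_iff]
    constructor
    · intro h; exact ⟨addOrderOf w - 1, by omega⟩
    · rintro ⟨n, hn⟩; omega
  rw [this]
  exact countable_iUnion fun n => (AddCircle.finite_setOfPred_addOrderOf_eq (1 : ℝ) (Nat.succ_pos n)).countable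

/-- A closed forward invariant set of positive Lebesgue measure is everything. -/
lemma eq_univ_of_volume {p : ℕ} (hp : 2 ≤ p) {A : Set Circ} (hA : IsClosed A)
    (hinv : ∀ x ∈ A, p • x ∈ A) (h : volume A ≠ 0) : A = univ := by
  have herg : Ergodic (fun y : Circ => p • y) volume := AddCircle.ergodic_nsmul (by omega)
  have h1 := herg.ae_empty_or_univ_of_ae_le_preimage hA.measurableSet.nullMeasurableSet
    (Filter.Eventually.of_forall (fun x hx => hinv x hx))
  rcases h1 with h1 | h1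
  · exact absurd (ae_eq_empty.1 h1) h
  · have h2 : volume Aᶜ = 0 := ae_eq_univ.1 h1
    have h3 : Aᶜ = ∅ := by
      by_contra hne
      exact (hA.isOpen_compl.measure_pos volume (nonempty_iff_ne_empty.2 hne)).ne' h2
    exact compl_empty_iff.1 h3

/-- If `n • K = T` for a closed `p`-invariant set then `K = T`. -/
lemma eq_univ_of_smul_image {p : ℕ} (hp : 2 ≤ p) {A : Set Circ} (hA : IsClosed A)
    (hinv : ∀ x ∈ A, p • x ∈ A) {n : ℕ} (hn : 0 < n) (h : ∀ y : Circ, ∃ z ∈ A, n • z = y) :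
    A = univ := by
  refine eq_univ_of_volume hp hA hinv ?_
  intro h0
  have hcov : (univ : Set Circ) ⊆ ⋃ w ∈ {w : Circ | IsOfFinAddOrder w}, (fun z => w + z) ⁻¹' A := by
    intro y _
    obtain ⟨z, hz, hzn⟩ := h (n • y)
    rw [mem_iUnion₂]
    refine ⟨z - y, ?_, ?_⟩
    · simp only [mem_ofPred_eq]
      rw [isOfFinAddOrder_iff_nsmul_eq_zero]
      exact ⟨n, hn, by rw [nsmul_sub, hzn, sub_self]⟩
    · simp only [mem_preimage, sub_add_cancel]; exact hz
  have h1 : volume (univ : Set Circ) = 0 := by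
    refine measure_mono_null hcov ((measure_biUnion_null_iff torsion_countable).2 fun w _ => ?_)
    rw [measure_preimage_add]; exact h0
  have h2 : volume (univ : Set Circ) ≠ 0 := by simp
  exact h2 h1

end Pool.Agent.H705R2
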