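import Mathlib
import Pool.Agent.H705R2.Orb

set_option autoImplicit false

open MeasureTheory Filter Topology Set

namespace Pool.Agent.H705R2

lemma iterate_smul (c m : ℕ) (x : Circ) : (fun y : Circ => c • y)^[m] x = c ^ m • x := by
  induction m with
  | zero => simp
  | succ m ih => rw [Function.iterate_succ_apply', ih, pow_succ', mul_smul]

lemma measurePreserving_pow {q : ℕ} {μ : Measure Circ}
    (hμ : MeasurePreserving (fun y : Circ => q • y) μ μ) (e : ℕ) :
    MeasurePreserving (fun y : Circ => (q ^ e) • y) μ μ := by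
  have := hμ.iterate e
  convert this using 1
  ext x
  exact (iterate_smul q e x).symm

/-! ### Part 2: orbit closures containing a torsion point -/

/-- the bad set of part 2 -/
def Bad2 (p n : ℕ) (J : Set Circ) : Set Circ :=
  {x | (∃ z ∈ {z : Circ | n • z = 0}, ∀ _ : Unit, z ∈ K p x) ∧ (∀ k : ℕ, n • p ^ k • x ≠ 0) ∧
    ∀ k : ℕ, n • p ^ k • x ∉ J}

lemma measurable_Bad2 (p n : ℕ) {J : Set Circ} (hJ : IsOpen J) : MeasurableSet (Bad2 p n J) := by
  have h1 : MeasurableSet {x : Circ | ∃ z ∈ {z : Circ | n • z = 0}, ∀ _ : Unit, z ∈ K p x} :=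
    measurable_exists p (isClosed_eq (continuous_nsmul n) continuous_const) (fun _ z => z)
      (fun _ => continuous_id)
  have h2 : MeasurableSet {x : Circ | ∀ k : ℕ, n • p ^ k • x ≠ 0} := by
    simp only [ofPred_forall]
    refine MeasurableSet.iInter fun k => IsOpen.measurableSet ?_
    exact isOpen_ne_fun (by fun_prop) continuous_const
  have h3 : MeasurableSet {x : Circ | ∀ k : ℕ, n • p ^ k • x ∉ J} := by
    simp only [ofPred_forall]
    refine MeasurableSet.iInter fun k => IsClosed.measurableSet ?_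
    exact hJ.isClosed_compl.preimage (by fun_prop : Continuous fun x : Circ => n • p ^ k • x)
  exact h1.inter (h2.inter h3)

theorem null_Bad2 {p q : ℕ} (hp : 2 ≤ p) (hq : 2 ≤ q) (h : MulIndep p q) {μ : Measure Circ}
    [IsProbabilityMeasure μ] (hμ : MeasurePreserving (fun y : Circ => q • y) μ μ) {n : ℕ}
    {J : Set Circ} (hJ : IsOpen J) (hJn : J.Nonempty) : μ (Bad2 p n J) = 0 := by
  refine recur hμ (measurable_Bad2 p n hJ) ?_
  rintro x ⟨⟨z, hz, hzK⟩, hne, -⟩
  replace hzK := hzK ()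
  simp only [mem_ofPred_eq] at hz
  set A : Set Circ := (fun y : Circ => n • y) '' K p x with hA
  have hAc : IsClosed A := ((isClosed_K p x).isCompact.image (continuous_nsmul n)).isClosed
  have hAinv : ∀ u ∈ A, p • u ∈ A := by
    rintro _ ⟨y, hy, rfl⟩
    exact ⟨p • y, smul_mem_K p hy, by simp only [smul_smul, mul_comm]⟩
  have hacc : ∀ ε > 0, ∃ u ∈ A, u ≠ 0 ∧ ‖u‖ < ε := by
    intro ε hε
    have hmem : n • z ∈ closure (range fun k : ℕ => n • p ^ k • x) := by
      refine map_mem_closure (continuous_nsmul n) hzK ?_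
      rintro _ ⟨k, rfl⟩
      exact ⟨k, rfl⟩
    rw [hz] at hmem
    obtain ⟨_, ⟨k, rfl⟩, hk⟩ := Metric.mem_closure_iff.1 hmem ε hε
    refine ⟨n • p ^ k • x, ⟨_, pow_smul_mem_K p x k, rfl⟩, hne k, ?_⟩
    rwa [dist_comm, dist_zero_right] at hk
  refine (lemmaC hp hq h hAc hAinv hacc hJ hJn).mono ?_
  intro m hm
  simp only [mem_ofPred_eq] at hm ⊢
  rw [iterate_smul] at hm
  rintro _ ⟨y, hy, rfl⟩
  have hcl : K p x ⊆ {y : Circ | q ^ m • n • y ∈ Jᶜ} := by
    refine closure_minimal ?_ ?_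
    · rintro _ ⟨k, rfl⟩
      simp only [mem_ofPred_eq, mem_compl_iff]
      have := hm.2.2 k
      have h2 : n • p ^ k • q ^ m • x = q ^ m • n • p ^ k • x := by
        simp only [smul_smul]; congr 1; ring
      rwa [h2] at this
    · exact hJ.isClosed_compl.preimage (by fun_prop : Continuous fun y : Circ => q ^ m • n • y)
  exact hcl hy

/-- Part 2. -/
theorem part2 {p q : ℕ} (hp : 2 ≤ p) (hq : 2 ≤ q) (h : MulIndep p q) {μ : Measure Circ}
    [IsProbabilityMeasure μ] [NullSingletonClass μ] (hμ : MeasurePreserving (fun y : Circ => q • y) μ μ) :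
    ∀ᵐ x ∂μ, (∃ z ∈ K p x, IsOfFinAddOrder z) → K p x = univ := by
  have h1 : ∀ᵐ x ∂μ, ¬ IsOfFinAddOrder x := by
    rw [ae_iff]
    simp only [not_not]
    exact torsion_countable.measure_zero μ
  have h2 : ∀ᵐ x ∂μ, ∀ n : ℕ, ∀ J ∈ TopologicalSpace.countableBasis Circ, x ∉ Bad2 p n J := by
    rw [ae_all_iff]; intro n
    rw [ae_ball_iff (TopologicalSpace.countable_countableBasis Circ)]
    intro J hJ
    exact measure_eq_zero_iff_ae_notMem.1
      (null_Bad2 hp hq h hμ (TopologicalSpace.isOpen_of_mem_countableBasis hJ)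
        (TopologicalSpace.nonempty_of_mem_countableBasis hJ))
  filter_upwards [h1, h2] with x hx1 hx2
  rintro ⟨z, hz, hzf⟩
  obtain ⟨n, hn, hnz⟩ := isOfFinAddOrder_iff_nsmul_eq_zero.1 hzf
  have hne : ∀ k : ℕ, n • p ^ k • x ≠ 0 := by
    intro k hk
    apply hx1
    rw [smul_smul] at hk
    exact isOfFinAddOrder_iff_nsmul_eq_zero.2 ⟨n * p ^ k, by positivity, hk⟩
  refine eq_univ_of_smul_image hp (isClosed_K p x) (fun y hy => smul_mem_K p hy) hn ?_
  have hdense : Dense (range fun k : ℕ => n • p ^ k • x) := by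
    refine (TopologicalSpace.isBasis_countableBasis Circ).dense_iff.2 ?_
    intro J hJ _
    by_contra hcon
    refine hx2 n J hJ ⟨⟨z, hnz, fun _ => hz⟩, hne, ?_⟩
    intro k hk
    exact hcon ⟨_, hk, k, rfl⟩
  have hAc : IsClosed ((fun y : Circ => n • y) '' K p x) :=
    ((isClosed_K p x).isCompact.image (continuous_nsmul n)).isClosed
  have hsub : closure (range fun k : ℕ => n • p ^ k • x) ⊆ (fun y : Circ => n • y) '' K p x := by
    refine closure_minimal ?_ hAc
    rintro _ ⟨k, rfl⟩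
    exact ⟨_, pow_smul_mem_K p x k, rfl⟩
  intro y
  have := hsub (hdense y)
  obtain ⟨w, hw, hwy⟩ := this
  exact ⟨w, hw, hwy⟩

/-! ### Part 1: orbit closures without torsion points -/

/-- `y` starts an arithmetic progression of length `k` and step `τ` in the orbit closure -/
def Kt (p : ℕ) (τ : Circ) (k : ℕ) (x : Circ) : Set Circ := {y | ∀ i : Fin k, y + (i : ℕ) • τ ∈ K p x}

lemma isClosed_Kt (p : ℕ) (τ : Circ) (k : ℕ) (x : Circ) : IsClosed (Kt p τ k x) := by
  unfold Kt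
  simp only [ofPred_forall]
  exact isClosed_iInter fun i => (isClosed_K p x).preimage
    (by fun_prop : Continuous fun y : Circ => y + (i : ℕ) • τ)

lemma smul_mem_Kt {p : ℕ} {τ : Circ} {k : ℕ} {x y : Circ} {e : ℕ} (he : p ^ e • τ = τ)
    (hy : y ∈ Kt p τ k x) : p ^ e • y ∈ Kt p τ k x := by
  intro i
  have h1 := pow_smul_mem_K' p (hy i) e
  have h2 : p ^ e • (y + (i : ℕ) • τ) = p ^ e • y + (i : ℕ) • τ := by
    rw [smul_add, smul_comm, he]
  rwa [h2] at h1

lemma smul_mem_Kt_smul {p c : ℕ} {τ : Circ} {k : ℕ} {x y : Circ} (hc : c • τ = τ)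
    (hy : y ∈ Kt p τ k x) : c • y ∈ Kt p τ k (c • x) := by
  intro i
  have h1 := smul_mem_K_smul p c (hy i)
  have h2 : c • (y + (i : ℕ) • τ) = c • y + (i : ℕ) • τ := by
    rw [smul_add, smul_comm, hc]
  rwa [h2] at h1

/-- no torsion point in the orbit closure -/
def NR (p : ℕ) : Set Circ := {x | ∀ z ∈ K p x, ¬ IsOfFinAddOrder z}

lemma measurable_NR (p : ℕ) : MeasurableSet (NR p) := by
  have : NR p = (⋃ n : ℕ, {x : Circ | ∃ z ∈ {z : Circ | (n + 1) • z = 0}, ∀ _ : Unit, z ∈ K p x})ᶜ := by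
    ext x
    simp only [NR, mem_ofPred_eq, mem_compl_iff, mem_iUnion, not_exists]
    constructor
    · rintro h n z ⟨hz, hzK⟩
      exact h z (hzK ()) (isOfFinAddOrder_iff_nsmul_eq_zero.2 ⟨n + 1, by omega, hz⟩)
    · intro h z hz hf
      obtain ⟨n, hn, hnz⟩ := isOfFinAddOrder_iff_nsmul_eq_zero.1 hf
      obtain ⟨m, rfl⟩ : ∃ m, n = m + 1 := ⟨n - 1, by omega⟩
      exact h m z ⟨hnz, fun _ => hz⟩
  rw [this]
  refine (MeasurableSet.iUnion fun n => ?_).compl
  exact measurable_exists p (isClosed_eq (continuous_nsmul (n + 1)) continuous_const) (fun _ z => z)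
      (fun _ => continuous_id)

/-- the bad set of part 1 -/
def Bad1 (p : ℕ) (τ : Circ) (k n : ℕ) : Set Circ :=
  {x | x ∈ NR p ∧ (∃ y ∈ (univ : Set Circ), ∀ i : Fin k, y + (i : ℕ) • τ ∈ K p x) ∧
    ¬ ∃ z ∈ {z : Circ × Circ | z.2 - z.1 ∈ Metric.closedBall τ (1 / ((n : ℝ) + 1))},
      ∀ i : Fin k × Bool, (if i.2 then z.1 else z.2) + (i.1 : ℕ) • τ ∈ K p x}

lemma measurable_Bad1 (p : ℕ) (τ : Circ) (k n : ℕ) : MeasurableSet (Bad1 p τ k n) := by
  have h1 : MeasurableSet {x : Circ | ∃ y ∈ (univ : Set Circ), ∀ i : Fin k, y + (i : ℕ) • τ ∈ K p x} :=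
    measurable_exists p isClosed_univ (fun (i : Fin k) (y : Circ) => y + (i : ℕ) • τ) (fun i => by fun_prop)
  have h2 : MeasurableSet {x : Circ | ∃ z ∈ {z : Circ × Circ | z.2 - z.1 ∈ Metric.closedBall τ (1 / ((n : ℝ) + 1))},
      ∀ i : Fin k × Bool, (if i.2 then z.1 else z.2) + (i.1 : ℕ) • τ ∈ K p x} := by
    refine measurable_exists p ?_ (fun (i : Fin k × Bool) (z : Circ × Circ) => (if i.2 then z.1 else z.2) + (i.1 : ℕ) • τ) ?_
    · exact Metric.isClosed_closedBall.preimage (by fun_prop : Continuous fun z : Circ × Circ => z.2 - z.1)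
    · rintro ⟨i, b⟩
      cases b
      · simp only [Bool.false_eq_true, if_false]; fun_prop
      · simp only [if_true]; fun_prop
  exact (measurable_NR p).inter (h1.inter h2.compl)

lemma mulIndep_pow {p q e : ℕ} (he : 0 < e) (h : MulIndep p q) : MulIndep (p ^ e) (q ^ e) := by
  intro m n hmn
  rw [← pow_mul, ← pow_mul] at hmn
  have := h _ _ hmn
  constructor
  · rcases Nat.mul_eq_zero.1 this.1 with h | h
    · omega
    · exact h
  · rcases Nat.mul_eq_zero.1 this.2 with h | h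
    · omega
    · exact h

theorem null_Bad1 {p q : ℕ} (hp : 2 ≤ p) (hq : 2 ≤ q) (h : MulIndep p q) {μ : Measure Circ}
    [IsProbabilityMeasure μ] (hμ : MeasurePreserving (fun y : Circ => q • y) μ μ)
    {τ : Circ} {e : ℕ} (he : 0 < e) (hpe : p ^ e • τ = τ) (hqe : q ^ e • τ = τ) {k : ℕ} (hk : 0 < k)
    (n : ℕ) : μ (Bad1 p τ k n) = 0 := by
  refine recur (measurePreserving_pow hμ e) (measurable_Bad1 p τ k n) ?_
  rintro x ⟨hNR, ⟨y, -, hy⟩, -⟩
  set Y := Kt p τ k x with hY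
  have hYne : y ∈ Y := hy
  have hYc : IsClosed Y := isClosed_Kt p τ k x
  have hYK : ∀ w ∈ Y, w ∈ K p x := by
    intro w hw
    have := hw ⟨0, hk⟩
    simpa using this
  set A : Set Circ := (fun z : Circ × Circ => z.2 - z.1) '' (Y ×ˢ Y) with hA
  have hAc : IsClosed A :=
    ((hYc.isCompact.prod hYc.isCompact).image (by fun_prop : Continuous fun z : Circ × Circ => z.2 - z.1)).isClosed
  have hAinv : ∀ u ∈ A, (p ^ e) • u ∈ A := by
    rintro _ ⟨⟨w, w'⟩, ⟨hw, hw'⟩, rfl⟩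
    exact ⟨(p ^ e • w, p ^ e • w'), ⟨smul_mem_Kt hpe hw, smul_mem_Kt hpe hw'⟩, by simp only [smul_sub]⟩
  have hpow : ∀ j : ℕ, (p ^ e) ^ j • y ∈ Y := by
    intro j
    induction j with
    | zero => simpa using hYne
    | succ j ih => rw [pow_succ', mul_smul]; exact smul_mem_Kt hpe ih
  have hpe1 : 1 < p ^ e := Nat.one_lt_pow he.ne' (by omega)
  have hYinf : Y.Infinite := by
    intro hfin
    have : ¬ Function.Injective (fun j : ℕ => (⟨(p ^ e) ^ j • y, hpow j⟩ : Y)) := by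
      intro hinj
      have := hfin.to_subtype
      exact not_injective_infinite_finite _ hinj
    rw [Function.not_injective_iff] at this
    obtain ⟨i, j, hij, hne⟩ := this
    simp only [Subtype.mk.injEq] at hij
    wlog hlt : i < j generalizing i j
    · exact this j i hne.symm hij.symm (by omega)
    refine hNR y (hYK y hYne) (isOfFinAddOrder_iff_nsmul_eq_zero.2 ⟨(p ^ e) ^ j - (p ^ e) ^ i, ?_, ?_⟩)
    · have := Nat.pow_lt_pow_right hpe1 hlt
      omega
    · rw [sub_nsmul _ (Nat.pow_le_pow_right (by omega) hlt.le), hij, add_neg_cancel]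
  have hacc : ∀ ε > 0, ∃ u ∈ A, u ≠ 0 ∧ ‖u‖ < ε := by
    intro ε hε
    obtain ⟨w, hwY, hw⟩ := hYinf.exists_accPt_of_subset_isCompact hYc.isCompact Subset.rfl
    rw [accPt_iff_nhds] at hw
    obtain ⟨v, ⟨hv1, hv2⟩, hvw⟩ := hw (Metric.ball w ε) (Metric.ball_mem_nhds w hε)
    refine ⟨v - w, ⟨(w, v), ⟨hwY, hv2⟩, rfl⟩, sub_ne_zero.2 hvw, ?_⟩
    rw [← dist_eq_norm]; exact hv1
  have hqe1 : 1 < q ^ e := Nat.one_lt_pow he.ne' (by omega)
  have hball : (Metric.ball τ (1 / ((n : ℝ) + 1))).Nonempty := ⟨τ, Metric.mem_ball_self (by positivity)⟩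
  refine (lemmaC (by omega) (by omega) (mulIndep_pow he h) hAc hAinv hacc
    Metric.isOpen_ball hball).mono ?_
  intro m hm
  simp only [mem_ofPred_eq] at hm ⊢
  rw [iterate_smul] at hm
  rintro _ ⟨⟨w, w'⟩, ⟨hw, hw'⟩, rfl⟩ hmem
  apply hm.2.2
  have hcτ : (q ^ e) ^ m • τ = τ := by
    clear hmem hm
    induction m with
    | zero => simp
    | succ m ih => rw [pow_succ', mul_smul, ih, hqe]
  refine ⟨((q ^ e) ^ m • w, (q ^ e) ^ m • w'), ?_, ?_⟩
  · simp only [mem_ofPred_eq]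
    apply Metric.ball_subset_closedBall
    simpa only [smul_sub] using hmem
  · rintro ⟨i, b⟩
    cases b
    · simp only [Bool.false_eq_true, if_false]
      exact smul_mem_Kt_smul hcτ hw' i
    · simp only [if_true]
      exact smul_mem_Kt_smul hcτ hw i

/-- Long arithmetic progressions in orbit closures without torsion points. -/
theorem progressions {p q : ℕ} (hp : 2 ≤ p) (hq : 2 ≤ q) (h : MulIndep p q) {μ : Measure Circ}
    [IsProbabilityMeasure μ] (hμ : MeasurePreserving (fun y : Circ => q • y) μ μ)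
    {τ : Circ} {e : ℕ} (he : 0 < e) (hpe : p ^ e • τ = τ) (hqe : q ^ e • τ = τ) (k : ℕ) :
    ∀ᵐ x ∂μ, x ∈ NR p → (Kt p τ (k + 1) x).Nonempty := by
  induction k with
  | zero =>
    filter_upwards with x _
    obtain ⟨y, hy⟩ := K_nonempty p x
    refine ⟨y, ?_⟩
    intro i
    have : (i : ℕ) = 0 := by omega
    rw [this, zero_smul, add_zero]; exact hy
  | succ k ih =>
    have h2 : ∀ᵐ x ∂μ, ∀ n : ℕ, x ∉ Bad1 p τ (k + 1) n := by
      rw [ae_all_iff]; intro n
      exact measure_eq_zero_iff_ae_notMem.1 (null_Bad1 hp hq h hμ he hpe hqe (Nat.succ_pos k) n)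
    filter_upwards [ih, h2] with x hx1 hx2 hNR
    obtain ⟨y₀, hy₀⟩ := hx1 hNR
    have h3 : ∀ n : ℕ, ∃ z : Circ × Circ, z.2 - z.1 ∈ Metric.closedBall τ (1 / ((n : ℝ) + 1)) ∧
        z.1 ∈ Kt p τ (k + 1) x ∧ z.2 ∈ Kt p τ (k + 1) x := by
      intro n
      by_contra hcon
      apply hx2 n
      refine ⟨hNR, ⟨y₀, mem_univ _, hy₀⟩, ?_⟩
      rintro ⟨z, hz, hzK⟩
      apply hcon
      refine ⟨z, hz, ?_, ?_⟩
      · intro i
        have := hzK (i, true)
        simpa using this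
      · intro i
        have := hzK (i, false)
        simpa using this
    choose z hz1 hz2 hz3 using h3
    have hKc := (isClosed_Kt p τ (k + 1) x).isCompact
    obtain ⟨w, ⟨hw1, hw2⟩, φ, hφ, hlim⟩ := (hKc.prod hKc).tendsto_subseq (fun n => ⟨hz2 n, hz3 n⟩ : ∀ n, z n ∈ Kt p τ (k + 1) x ×ˢ Kt p τ (k + 1) x)
    have hdiff : w.2 - w.1 = τ := by
      have hc : Continuous fun z : Circ × Circ => dist (z.2 - z.1) τ := by fun_prop
      have h4 : Tendsto (fun n => dist ((z (φ n)).2 - (z (φ n)).1) τ) atTop (𝓝 (dist (w.2 - w.1) τ)) :=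
        (hc.tendsto w).comp hlim
      have h5 : Tendsto (fun n => dist ((z (φ n)).2 - (z (φ n)).1) τ) atTop (𝓝 0) := by
        refine squeeze_zero (fun _ => dist_nonneg) (fun n => ?_)
          (tendsto_one_div_add_atTop_nhds_zero_nat.comp hφ.tendsto_atTop)
        exact hz1 (φ n)
      exact dist_eq_zero.1 (tendsto_nhds_unique h4 h5)
    refine ⟨w.1, ?_⟩
    intro i
    rcases Nat.lt_or_ge (i : ℕ) (k + 1) with hi | hi
    · exact hw1 ⟨i, hi⟩
    · have hi' : (i : ℕ) = k + 1 := by omega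
      have h6 := hw2 ⟨k, by omega⟩
      have h7 : w.1 + (i : ℕ) • τ = w.2 + k • τ := by
        rw [hi', succ_nsmul', ← add_assoc, ← hdiff]; abel
      rw [h7]; exact h6

lemma coe_inv_smul {t a : ℕ} (ht : 0 < t) (ha : a ≡ 1 [MOD t]) :
    a • (((1 : ℝ) / t : ℝ) : Circ) = (((1 : ℝ) / t : ℝ) : Circ) := by
  have h1 : (a : ℤ) ≡ 1 [ZMOD t] := by exact_mod_cast (Int.natCast_modEq_iff.2 ha)
  obtain ⟨s, hs⟩ := h1.symm.dvd
  have ht' : (t : ℝ) ≠ 0 := by positivity
  rw [← sub_eq_zero, ← AddCircle.coe_nsmul, ← AddCircle.coe_sub, AddCircle.coe_eq_zero_iff]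
  refine ⟨s, ?_⟩
  have h2 : (a : ℝ) - 1 = t * s := by exact_mod_cast hs
  simp only [zsmul_eq_mul, mul_one, nsmul_eq_mul]
  field_simp
  linarith

/-- Part 1. -/
theorem part1 {p q : ℕ} (hp : 2 ≤ p) (hq : 2 ≤ q) (h : MulIndep p q) {μ : Measure Circ}
    [IsProbabilityMeasure μ] (hμ : MeasurePreserving (fun y : Circ => q • y) μ μ) :
    ∀ᵐ x ∂μ, ∃ z ∈ K p x, IsOfFinAddOrder z := by
  set t : ℕ → ℕ := fun N => p * q * N + 1 with ht
  have htpos : ∀ N, 0 < t N := fun N => Nat.succ_pos _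
  have hcop : ∀ N, Nat.Coprime p (t N) ∧ Nat.Coprime q (t N) := by
    intro N
    constructor
    · have : t N = 1 + p * (q * N) := by simp only [ht]; ring
      rw [this]; simp
    · have : t N = 1 + q * (p * N) := by simp only [ht]; ring
      rw [this]; simp
  have hae : ∀ᵐ x ∂μ, ∀ N : ℕ, x ∈ NR p → (Kt p (((1 : ℝ) / t N : ℝ) : Circ) (t N) x).Nonempty := by
    rw [ae_all_iff]
    intro N
    have he : 0 < (t N).totient := Nat.totient_pos.2 (htpos N)
    have h1 := progressions hp hq h hμ he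
      (coe_inv_smul (htpos N) (Nat.ModEq.pow_totient (hcop N).1))
      (coe_inv_smul (htpos N) (Nat.ModEq.pow_totient (hcop N).2)) (t N - 1)
    rwa [Nat.sub_add_cancel (htpos N)] at h1
  filter_upwards [hae] with x hx
  by_contra hcon
  have hNR : x ∈ NR p := by
    intro z hz hf
    exact hcon ⟨z, hz, hf⟩
  refine hNR 0 ?_ IsOfFinAddOrder.zero
  refine Metric.mem_closure_iff.2 fun ε hε => ?_
  obtain ⟨N, hN⟩ := exists_nat_gt (2 / ε)
  obtain ⟨y, hy⟩ := hx N hNR
  have htN : (N : ℝ) < t N := by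
    have : N < t N := by
      simp only [ht]
      have : 1 ≤ p * q := Nat.one_le_iff_ne_zero.2 (by positivity)
      nlinarith
    exact_mod_cast this
  have htN0 : (0 : ℝ) < t N := by exact_mod_cast htpos N
  -- representative
  obtain ⟨r₀, hr₀⟩ := QuotientAddGroup.mk_surjective (-y)
  set r : ℝ := Int.fract r₀ with hr
  have hr1 : (r : Circ) = -y := by
    have h1 : ((r₀ - ⌊r₀⌋ : ℝ) : Circ) = (r₀ : Circ) - ((⌊r₀⌋ : ℝ) : Circ) := AddCircle.coe_sub _ _ _
    have h2 : (((⌊r₀⌋ : ℤ) : ℝ) : Circ) = 0 := by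
      rw [AddCircle.coe_eq_zero_iff]; exact ⟨⌊r₀⌋, by simp⟩
    rw [h2, sub_zero] at h1
    exact h1.trans hr₀
  have hr0 : 0 ≤ r := Int.fract_nonneg _
  have hrlt : r < 1 := Int.fract_lt_one _
  set i : ℕ := ⌊r * t N⌋₊ with hi
  have hilt : i < t N := by
    rw [hi, Nat.floor_lt (by positivity)]
    nlinarith
  have hi1 : (i : ℝ) ≤ r * t N := Nat.floor_le (by positivity)
  have hi2 : r * t N < i + 1 := Nat.lt_floor_add_one _
  have hmem := hy ⟨i, hilt⟩
  obtain ⟨_, ⟨n, rfl⟩, hn⟩ := Metric.mem_closure_iff.1 hmem (ε / 2) (by positivity)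
  refine ⟨_, ⟨n, rfl⟩, ?_⟩
  have hd : dist (0 : Circ) (y + i • (((1 : ℝ) / t N : ℝ) : Circ)) ≤ 1 / t N := by
    have h1 : y + i • (((1 : ℝ) / t N : ℝ) : Circ) = (((i : ℝ) / t N - r : ℝ) : Circ) := by
      rw [AddCircle.coe_sub, hr1, ← AddCircle.coe_nsmul, nsmul_eq_mul, sub_neg_eq_add, add_comm]
      congr 2
      ring
    rw [h1, dist_zero_left]
    refine (QuotientAddGroup.norm_mk_le_norm (S := AddSubgroup.zmultiples (1 : ℝ))).trans ?_
    rw [Real.norm_eq_abs, abs_le]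
    constructor
    · rw [le_sub_iff_add_le, ← sub_eq_neg_add, sub_le_iff_le_add, ← add_div, le_div_iff₀ htN0]
      linarith
    · rw [sub_le_iff_le_add]
      have : (i : ℝ) / t N ≤ r := by rw [div_le_iff₀ htN0]; exact hi1
      have : 0 < 1 / (t N : ℝ) := by positivity
      linarith
  have hlt : 1 / (t N : ℝ) < ε / 2 := by
    rw [div_lt_iff₀ htN0]
    rw [div_lt_iff₀ hε] at hN
    nlinarith
  calc dist (0 : Circ) (p ^ n • x)
      ≤ dist 0 (y + i • (((1 : ℝ) / t N : ℝ) : Circ)) + dist (y + i • (((1 : ℝ) / t N : ℝ) : Circ)) (p ^ n • x) :=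
        dist_triangle _ _ _
    _ < ε / 2 + ε / 2 := by
        have h9 : dist (y + i • (((1 : ℝ) / t N : ℝ) : Circ)) (p ^ n • x) < ε / 2 := hn
        linarith
    _ = ε := by ring

/-- Main theorem: for an atomless `q`-invariant measure almost every point has a dense orbit under
multiplication by `p`. -/
theorem ae_dense {p q : ℕ} (hp : 2 ≤ p) (hq : 2 ≤ q) (h : MulIndep p q) {μ : Measure Circ}
    [IsProbabilityMeasure μ] [NullSingletonClass μ] (hμ : MeasurePreserving (fun y : Circ => q • y) μ μ) :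
    ∀ᵐ x ∂μ, Dense (range fun n : ℕ => p ^ n • x) := by
  filter_upwards [part1 hp hq h hμ, part2 hp hq h hμ] with x h1 h2
  have := h2 h1
  exact dense_iff_closure_eq.2 this

end Pool.Agent.H705R2
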