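import Mathlib
import Pool.Agent.H705R2.Dense

set_option autoImplicit false

open MeasureTheory Filter Topology Set

namespace Pool.Agent.H705R2

lemma exists_notMem_of_densityZero {S : Set ℕ} (h : DensityZero S) : ∃ m, m ∉ S := by
  by_contra hcon
  push Not at hcon
  unfold DensityZero at h
  have h1 : ∀ᶠ M : ℕ in atTop, ((Nat.card {m : ℕ // m < M ∧ m ∈ S} : ℕ) : ℝ) / M < 1 / 2 :=
    h.eventually_lt_const (by norm_num)
  obtain ⟨M, hM, hM0⟩ := (h1.and (eventually_gt_atTop 0)).exists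
  classical
  rw [natCard_eq, Finset.filter_true_of_mem (fun m _ => hcon m), Finset.card_range,
    div_self (by exact_mod_cast hM0.ne')] at hM
  norm_num at hM

/-- translates along arithmetic progressions contained in `A` -/
def At (A : Set Circ) (τ : Circ) (k : ℕ) : Set Circ := {y | ∀ i : Fin k, y + (i : ℕ) • τ ∈ A}

lemma isClosed_At {A : Set Circ} (hA : IsClosed A) (τ : Circ) (k : ℕ) : IsClosed (At A τ k) := by
  unfold At
  simp only [ofPred_forall]
  exact isClosed_iInter fun i => hA.preimage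
    (by fun_prop : Continuous fun y : Circ => y + (i : ℕ) • τ)

lemma smul_mem_At {A : Set Circ} {τ : Circ} {k c : ℕ} {y : Circ} (hA : ∀ x ∈ A, c • x ∈ A)
    (hc : c • τ = τ) (hy : y ∈ At A τ k) : c • y ∈ At A τ k := by
  intro i
  have h1 := hA _ (hy i)
  have h2 : c • (y + (i : ℕ) • τ) = c • y + (i : ℕ) • τ := by
    rw [smul_add, smul_comm, hc]
  rwa [h2] at h1

lemma pow_smul_mem {A : Set Circ} {c : ℕ} (hA : ∀ x ∈ A, c • x ∈ A) (e : ℕ) :
    ∀ x ∈ A, c ^ e • x ∈ A := by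
  induction e with
  | zero => intro x hx; simpa using hx
  | succ e ih => intro x hx; rw [pow_succ', mul_smul]; exact hA _ (ih x hx)

theorem det_progressions {p q : ℕ} (hp : 2 ≤ p) (hq : 2 ≤ q) (h : MulIndep p q) {A : Set Circ}
    (hA : IsClosed A) (hne : A.Nonempty) (hAp : ∀ x ∈ A, p • x ∈ A) (hAq : ∀ x ∈ A, q • x ∈ A)
    (hNR : ∀ x ∈ A, ¬ IsOfFinAddOrder x)
    {τ : Circ} {e : ℕ} (he : 0 < e) (hpe : p ^ e • τ = τ) (hqe : q ^ e • τ = τ) (k : ℕ) :
    (At A τ (k + 1)).Nonempty := by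
  induction k with
  | zero =>
    obtain ⟨y, hy⟩ := hne
    refine ⟨y, ?_⟩
    intro i
    have : (i : ℕ) = 0 := by omega
    rw [this, zero_smul, add_zero]; exact hy
  | succ k ih =>
    obtain ⟨y, hYne⟩ := ih
    set Y := At A τ (k + 1) with hY
    have hYc : IsClosed Y := isClosed_At hA τ (k + 1)
    have hYK : ∀ w ∈ Y, w ∈ A := by
      intro w hw
      have := hw ⟨0, Nat.succ_pos k⟩
      simpa using this
    have hYp : ∀ w ∈ Y, p ^ e • w ∈ Y := fun w hw => smul_mem_At (pow_smul_mem hAp e) hpe hw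
    have hYq : ∀ w ∈ Y, q ^ e • w ∈ Y := fun w hw => smul_mem_At (pow_smul_mem hAq e) hqe hw
    set D : Set Circ := (fun z : Circ × Circ => z.2 - z.1) '' (Y ×ˢ Y) with hD
    have hDc : IsClosed D :=
      ((hYc.isCompact.prod hYc.isCompact).image (by fun_prop : Continuous fun z : Circ × Circ => z.2 - z.1)).isClosed
    have hDp : ∀ u ∈ D, (p ^ e) • u ∈ D := by
      rintro _ ⟨⟨w, w'⟩, ⟨hw, hw'⟩, rfl⟩
      exact ⟨(p ^ e • w, p ^ e • w'), ⟨hYp _ hw, hYp _ hw'⟩, by simp only [smul_sub]⟩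
    have hDq : ∀ u ∈ D, (q ^ e) • u ∈ D := by
      rintro _ ⟨⟨w, w'⟩, ⟨hw, hw'⟩, rfl⟩
      exact ⟨(q ^ e • w, q ^ e • w'), ⟨hYq _ hw, hYq _ hw'⟩, by simp only [smul_sub]⟩
    have hpow : ∀ j : ℕ, (p ^ e) ^ j • y ∈ Y := fun j => pow_smul_mem hYp j y hYne
    have hpe1 : 1 < p ^ e := Nat.one_lt_pow he.ne' (by omega)
    have hqe1 : 1 < q ^ e := Nat.one_lt_pow he.ne' (by omega)
    have hYinf : Y.Infinite := by
      intro hfin
      have : ¬ Function.Injective (fun j : ℕ => (⟨(p ^ e) ^ j • y, hpow j⟩ : Y)) := by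
        intro hinj
        have := hfin.to_subtype
        exact not_injective_infinite_finite _ hinj
      rw [Function.not_injective_iff] at this
      obtain ⟨i, j, hij, hne⟩ := this
      simp only [Subtype.mk.injEq] at hij
      wlog hlt : i < j generalizing i j
      · exact this j i hne.symm hij.symm (by omega)
      refine hNR y (hYK y hYne) (isOfFinAddOrder_iff_nsmul_eq_zero.2 ⟨(p ^ e) ^ j - (p ^ e) ^ i, ?_, ?_⟩)
      · have := Nat.pow_lt_pow_right hpe1 hlt
        omega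
      · rw [sub_nsmul _ (Nat.pow_le_pow_right (by omega) hlt.le), hij, add_neg_cancel]
    have hacc : ∀ ε > 0, ∃ u ∈ D, u ≠ 0 ∧ ‖u‖ < ε := by
      intro ε hε
      obtain ⟨w, hwY, hw⟩ := hYinf.exists_accPt_of_subset_isCompact hYc.isCompact Subset.rfl
      rw [accPt_iff_nhds] at hw
      obtain ⟨v, ⟨hv1, hv2⟩, hvw⟩ := hw (Metric.ball w ε) (Metric.ball_mem_nhds w hε)
      refine ⟨v - w, ⟨(w, v), ⟨hwY, hv2⟩, rfl⟩, sub_ne_zero.2 hvw, ?_⟩
      rw [← dist_eq_norm]; exact hv1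
    have hτD : τ ∈ D := by
      rw [← hDc.closure_eq]
      refine Metric.mem_closure_iff.2 fun ε hε => ?_
      have h1 := lemmaC (by omega) (by omega) (mulIndep_pow he h) hDc hDp hacc
        (J := Metric.ball τ ε) Metric.isOpen_ball ⟨τ, Metric.mem_ball_self hε⟩
      obtain ⟨m, hm⟩ := exists_notMem_of_densityZero h1
      simp only [mem_ofPred_eq, not_forall, not_not] at hm
      obtain ⟨u, hu, hm⟩ := hm
      refine ⟨_, pow_smul_mem hDq m u hu, ?_⟩
      rw [dist_comm]; exact hm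
    obtain ⟨⟨w, w'⟩, ⟨hw, hw'⟩, hww⟩ := hτD
    simp only at hww hw hw'
    refine ⟨w, ?_⟩
    intro i
    rcases Nat.lt_or_ge (i : ℕ) (k + 1) with hi | hi
    · exact hw ⟨i, hi⟩
    · have hi' : (i : ℕ) = k + 1 := by omega
      have h6 := hw' ⟨k, by omega⟩
      have h7 : w + (i : ℕ) • τ = w' + k • τ := by
        rw [hi', succ_nsmul', ← add_assoc, ← hww]; abel
      rw [h7]; exact h6

/-- closed bi-invariant sets contain torsion points -/
theorem det_part1 {p q : ℕ} (hp : 2 ≤ p) (hq : 2 ≤ q) (h : MulIndep p q) {A : Set Circ}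
    (hA : IsClosed A) (hne : A.Nonempty) (hAp : ∀ x ∈ A, p • x ∈ A) (hAq : ∀ x ∈ A, q • x ∈ A) :
    ∃ z ∈ A, IsOfFinAddOrder z := by
  by_contra hcon
  have hNR : ∀ x ∈ A, ¬ IsOfFinAddOrder x := fun x hx hf => hcon ⟨x, hx, hf⟩
  set t : ℕ → ℕ := fun N => p * q * N + 1 with ht
  have htpos : ∀ N, 0 < t N := fun N => Nat.succ_pos _
  have hcop : ∀ N, Nat.Coprime p (t N) ∧ Nat.Coprime q (t N) := by
    intro N
    constructor
    · have : t N = 1 + p * (q * N) := by simp only [ht]; ring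
      rw [this]; simp
    · have : t N = 1 + q * (p * N) := by simp only [ht]; ring
      rw [this]; simp
  have hx : ∀ N : ℕ, (At A (((1 : ℝ) / t N : ℝ) : Circ) (t N)).Nonempty := by
    intro N
    have he : 0 < (t N).totient := Nat.totient_pos.2 (htpos N)
    have h1 := det_progressions hp hq h hA hne hAp hAq hNR he
      (coe_inv_smul (htpos N) (Nat.ModEq.pow_totient (hcop N).1))
      (coe_inv_smul (htpos N) (Nat.ModEq.pow_totient (hcop N).2)) (t N - 1)
    rwa [Nat.sub_add_cancel (htpos N)] at h1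
  refine hNR 0 ?_ IsOfFinAddOrder.zero
  rw [← hA.closure_eq]
  refine Metric.mem_closure_iff.2 fun ε hε => ?_
  obtain ⟨N, hN⟩ := exists_nat_gt (1 / ε)
  obtain ⟨y, hy⟩ := hx N
  have htN : (N : ℝ) < t N := by
    have : N < t N := by
      simp only [ht]
      have : 1 ≤ p * q := Nat.one_le_iff_ne_zero.2 (by positivity)
      nlinarith
    exact_mod_cast this
  have htN0 : (0 : ℝ) < t N := by exact_mod_cast htpos N
  obtain ⟨r₀, hr₀⟩ := QuotientAddGroup.mk_surjective (-y)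
  set r : ℝ := Int.fract r₀ with hr
  have hr1 : (r : Circ) = -y := by
    have h1 : ((r₀ - ⌊r₀⌋ : ℝ) : Circ) = (r₀ : Circ) - ((⌊r₀⌋ : ℝ) : Circ) := AddCircle.coe_sub _ _ _
    have h2 : (((⌊r₀⌋ : ℤ) : ℝ) : Circ) = 0 := by
      rw [AddCircle.coe_eq_zero_iff]; exact ⟨⌊r₀⌋, by simp⟩
    rw [h2, sub_zero] at h1
    exact h1.trans hr₀
  have hr0 : 0 ≤ r := Int.fract_nonneg _
  have hrlt : r < 1 := Int.fract_lt_one _
  set i : ℕ := ⌊r * t N⌋₊ with hi
  have hilt : i < t N := by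
    rw [hi, Nat.floor_lt (by positivity)]
    nlinarith
  have hi1 : (i : ℝ) ≤ r * t N := Nat.floor_le (by positivity)
  have hi2 : r * t N < i + 1 := Nat.lt_floor_add_one _
  have hmem := hy ⟨i, hilt⟩
  refine ⟨_, hmem, ?_⟩
  have hd : dist (0 : Circ) (y + i • (((1 : ℝ) / t N : ℝ) : Circ)) ≤ 1 / t N := by
    have h1 : y + i • (((1 : ℝ) / t N : ℝ) : Circ) = (((i : ℝ) / t N - r : ℝ) : Circ) := by
      rw [AddCircle.coe_sub, hr1, ← AddCircle.coe_nsmul, nsmul_eq_mul, sub_neg_eq_add, add_comm]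
      congr 2
      ring
    rw [h1, dist_zero_left]
    refine (QuotientAddGroup.norm_mk_le_norm (S := AddSubgroup.zmultiples (1 : ℝ))).trans ?_
    rw [Real.norm_eq_abs, abs_le]
    constructor
    · rw [le_sub_iff_add_le, ← sub_eq_neg_add, sub_le_iff_le_add, ← add_div, le_div_iff₀ htN0]
      linarith
    · rw [sub_le_iff_le_add]
      have : (i : ℝ) / t N ≤ r := by rw [div_le_iff₀ htN0]; exact hi1
      have : 0 < 1 / (t N : ℝ) := by positivity
      linarith
  have hlt : 1 / (t N : ℝ) < ε := by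
    rw [div_lt_iff₀ htN0]
    rw [div_lt_iff₀ hε] at hN
    nlinarith
  exact lt_of_le_of_lt hd hlt

/-- Density of `{p ^ a q ^ b t}` for a non-torsion point `t`. -/
theorem orbit_dense {p q : ℕ} (hp : 2 ≤ p) (hq : 2 ≤ q) (h : MulIndep p q) {t : Circ}
    (ht : ¬ IsOfFinAddOrder t) : Dense (range fun i : ℕ × ℕ => (p ^ i.1 * q ^ i.2) • t) := by
  set A : Set Circ := closure (range fun i : ℕ × ℕ => (p ^ i.1 * q ^ i.2) • t) with hAdef
  have hA : IsClosed A := isClosed_closure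
  have hAp : ∀ x ∈ A, p • x ∈ A := by
    intro x hx
    refine map_mem_closure (continuous_nsmul p) hx ?_
    rintro _ ⟨⟨a, b⟩, rfl⟩
    exact ⟨(a + 1, b), by simp only [smul_smul]; congr 1; ring⟩
  have hAq : ∀ x ∈ A, q • x ∈ A := by
    intro x hx
    refine map_mem_closure (continuous_nsmul q) hx ?_
    rintro _ ⟨⟨a, b⟩, rfl⟩
    exact ⟨(a, b + 1), by simp only [smul_smul]; congr 1; ring⟩
  have hne : A.Nonempty := ⟨_, subset_closure ⟨(0, 0), rfl⟩⟩
  obtain ⟨z, hz, hzf⟩ := det_part1 hp hq h hA hne hAp hAq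
  obtain ⟨n, hn, hnz⟩ := isOfFinAddOrder_iff_nsmul_eq_zero.1 hzf
  suffices hAu : A = univ by exact dense_iff_closure_eq.2 hAu
  refine eq_univ_of_smul_image hp hA hAp hn ?_
  set B : Set Circ := (fun y : Circ => n • y) '' A with hB
  have hBc : IsClosed B := (hA.isCompact.image (continuous_nsmul n)).isClosed
  have hBp : ∀ u ∈ B, p • u ∈ B := by
    rintro _ ⟨y, hy, rfl⟩
    exact ⟨p • y, hAp _ hy, by simp only [smul_smul, mul_comm]⟩
  have hBq : ∀ u ∈ B, q • u ∈ B := by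
    rintro _ ⟨y, hy, rfl⟩
    exact ⟨q • y, hAq _ hy, by simp only [smul_smul, mul_comm]⟩
  have hacc : ∀ ε > 0, ∃ u ∈ B, u ≠ 0 ∧ ‖u‖ < ε := by
    intro ε hε
    have hmem : n • z ∈ closure (range fun i : ℕ × ℕ => n • (p ^ i.1 * q ^ i.2) • t) := by
      refine map_mem_closure (continuous_nsmul n) hz ?_
      rintro _ ⟨k, rfl⟩
      exact ⟨k, rfl⟩
    rw [hnz] at hmem
    obtain ⟨_, ⟨k, rfl⟩, hk⟩ := Metric.mem_closure_iff.1 hmem ε hε
    refine ⟨n • (p ^ k.1 * q ^ k.2) • t, ⟨_, subset_closure ⟨k, rfl⟩, rfl⟩, ?_, ?_⟩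
    · intro h0
      apply ht
      rw [smul_smul] at h0
      exact isOfFinAddOrder_iff_nsmul_eq_zero.2 ⟨_, by positivity, h0⟩
    · rwa [dist_comm, dist_zero_right] at hk
  have hBd : Dense B := by
    rw [dense_iff_inter_open]
    intro J hJ hJn
    obtain ⟨m, hm⟩ := exists_notMem_of_densityZero (lemmaC hp hq h hBc hBp hacc hJ hJn)
    simp only [mem_ofPred_eq, not_forall, not_not] at hm
    obtain ⟨u, hu, hm⟩ := hm
    exact ⟨_, hm, pow_smul_mem hBq m u hu⟩
  intro y
  have h9 : B = univ := by rw [← hBc.closure_eq]; exact hBd.closure_eq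
  have : y ∈ B := h9 ▸ mem_univ y
  obtain ⟨w, hw, hwy⟩ := this
  exact ⟨w, hw, hwy⟩

/-- Translation singularity. -/
theorem translation_singular {p q : ℕ} (hp : 2 ≤ p) (hq : 2 ≤ q) (h : MulIndep p q)
    {μ ν : Measure Circ} [IsProbabilityMeasure μ] [IsProbabilityMeasure ν]
    (hμp : MeasurePreserving (fun y : Circ => p • y) μ μ)
    (hμq : MeasurePreserving (fun y : Circ => q • y) μ μ)
    (hνp : MeasurePreserving (fun y : Circ => p • y) ν ν)
    (hνq : MeasurePreserving (fun y : Circ => q • y) ν ν)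
    (hμ : μ ⟂ₘ volume) {t : Circ} (ht : ¬ IsOfFinAddOrder t) :
    μ ⟂ₘ ν.map (fun y => y + t) := by
  by_contra hcon
  rw [Measure.mutuallySingular_iff_disjoint, disjoint_iff_inf_le] at hcon
  set ρ : Measure Circ := μ ⊓ ν.map (fun y => y + t) with hρ
  have hρμ : ρ ≤ μ := inf_le_left
  have hρν : ρ ≤ ν.map (fun y => y + t) := inf_le_right
  have hc : ρ univ ≠ 0 := by
    intro h0
    apply hcon
    rw [Measure.measure_univ_eq_zero] at h0
    rw [h0]; exact le_rfl
  have hcfin : ρ univ ≠ ⊤ := ne_top_of_le_ne_top (measure_ne_top μ univ) (hρμ univ)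
  set c : ENNReal := ρ univ with hcdef
  have hc2 : c / 2 ≠ 0 := by simp [hc]
  -- compact null set carrying most of the mass of `μ`
  obtain ⟨s, hs, hμs, hvs⟩ := hμ
  have hμs' : μ sᶜ = 1 := by
    rw [prob_compl_eq_one_sub hs, hμs, tsub_zero]
  obtain ⟨Kc, hKs, hKc, hKμ⟩ : ∃ Kc ⊆ sᶜ, IsCompact Kc ∧ μ sᶜ < μ Kc + c / 2 :=
    hs.compl.exists_isCompact_lt_add (measure_ne_top _ _) hc2
  have hKv : volume Kc = 0 := measure_mono_null hKs hvs
  have hKm : MeasurableSet Kc := hKc.isClosed.measurableSet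
  have hKcompl : μ Kcᶜ ≤ c / 2 := by
    rw [hμs'] at hKμ
    rw [prob_compl_eq_one_sub hKm]
    exact tsub_le_iff_left.2 hKμ.le
  set g : Circ → ENNReal := fun s => ν ((fun y => y + s) ⁻¹' Kc) with hg
  have hMP : ∀ (ξ : Measure Circ), MeasurePreserving (fun y : Circ => p • y) ξ ξ →
      MeasurePreserving (fun y : Circ => q • y) ξ ξ → ∀ i : ℕ × ℕ,
      MeasurePreserving (fun y : Circ => (p ^ i.1 * q ^ i.2) • y) ξ ξ := by
    intro ξ h1 h2 i
    have h3 := (measurePreserving_pow h1 i.1).comp (measurePreserving_pow h2 i.2)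
    convert h3 using 1
    ext x
    simp only [Function.comp, mul_smul]
  have hgn : ∀ i : ℕ × ℕ, c / 2 ≤ g ((p ^ i.1 * q ^ i.2) • t) := by
    intro i
    set n : ℕ := p ^ i.1 * q ^ i.2 with hn
    have hmeas : Measurable fun y : Circ => n • y := (continuous_nsmul n).measurable
    have e1 : ρ.map (fun y : Circ => n • y) ≤ μ := by
      calc ρ.map (fun y : Circ => n • y) ≤ μ.map (fun y : Circ => n • y) := Measure.map_mono hρμ hmeas
        _ = μ := (hMP μ hμp hμq i).map_eq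
    have e2 : ρ.map (fun y : Circ => n • y) ≤ ν.map (fun y => y + n • t) := by
      calc ρ.map (fun y : Circ => n • y)
          ≤ (ν.map (fun y => y + t)).map (fun y : Circ => n • y) := Measure.map_mono hρν hmeas
        _ = (ν.map (fun y : Circ => n • y)).map (fun y => y + n • t) := by
            rw [Measure.map_map hmeas (by fun_prop), Measure.map_map (by fun_prop) hmeas]
            congr 1
            ext y
            simp only [Function.comp, smul_add]
        _ = ν.map (fun y => y + n • t) := by rw [(hMP ν hνp hνq i).map_eq]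
    have e3 : c ≤ ρ.map (fun y : Circ => n • y) Kc + ρ.map (fun y : Circ => n • y) Kcᶜ := by
      rw [measure_add_measure_compl hKm, Measure.map_apply hmeas MeasurableSet.univ, preimage_univ]
    have e4 : ρ.map (fun y : Circ => n • y) Kc ≤ g (n • t) := by
      refine (e2 Kc).trans (le_of_eq ?_)
      rw [Measure.map_apply (by fun_prop) hKm]
    have e5 : ρ.map (fun y : Circ => n • y) Kcᶜ ≤ c / 2 := (e1 _).trans hKcompl
    have e6 : c ≤ g (n • t) + c / 2 := e3.trans (add_le_add e4 e5)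
    have e7 : c / 2 + c / 2 ≤ g (n • t) + c / 2 := by rwa [ENNReal.add_halves]
    exact (ENNReal.add_le_add_iff_right (ENNReal.div_ne_top hcfin (by norm_num))).1 e7
  -- upper semicontinuity
  have hgall : ∀ s₀ : Circ, c / 2 ≤ g s₀ := by
    intro s₀
    by_contra hlt
    push Not at hlt
    obtain ⟨U, hU, hUo, hUν⟩ := ((fun y : Circ => y + s₀) ⁻¹' Kc).exists_isOpen_lt_of_lt _ hlt
    have hKc0 : IsCompact ((fun y : Circ => y + s₀) ⁻¹' Kc) :=
      (hKc.isClosed.preimage (by fun_prop : Continuous fun y : Circ => y + s₀)).isCompact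
    obtain ⟨δ, hδ, hthick⟩ := hKc0.exists_thickening_subset_open hUo hU
    obtain ⟨_, hs1, ⟨i, rfl⟩⟩ := (orbit_dense hp hq h ht).inter_open_nonempty (Metric.ball s₀ δ)
      Metric.isOpen_ball ⟨s₀, Metric.mem_ball_self hδ⟩
    have hsub : (fun y : Circ => y + (p ^ i.1 * q ^ i.2) • t) ⁻¹' Kc ⊆ U := by
      intro y hy
      apply hthick
      rw [Metric.mem_thickening_iff]
      refine ⟨y + (p ^ i.1 * q ^ i.2) • t - s₀, ?_, ?_⟩
      · simp only [mem_preimage, sub_add_cancel]; exact hy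
      · rw [dist_eq_norm]
        have : y - (y + (p ^ i.1 * q ^ i.2) • t - s₀) = -((p ^ i.1 * q ^ i.2) • t - s₀) := by abel
        rw [this, norm_neg, ← dist_eq_norm]
        exact hs1
    exact absurd ((hgn i).trans (measure_mono hsub)) (not_le.2 hUν)
  -- Fubini
  have hKm2 : MeasurableSet {z : Circ × Circ | z.1 + z.2 ∈ Kc} :=
    (by fun_prop : Measurable fun z : Circ × Circ => z.1 + z.2) hKm
  have hint : ∫⁻ s, g s ∂(volume : Measure Circ) = 0 := by
    have f1 : (ν.prod (volume : Measure Circ)) {z : Circ × Circ | z.1 + z.2 ∈ Kc} =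
        ∫⁻ y, volume (Prod.mk y ⁻¹' {z : Circ × Circ | z.1 + z.2 ∈ Kc}) ∂ν := Measure.prod_apply hKm2
    have f2 : (ν.prod (volume : Measure Circ)) {z : Circ × Circ | z.1 + z.2 ∈ Kc} =
        ∫⁻ s, ν ((fun y => (y, s)) ⁻¹' {z : Circ × Circ | z.1 + z.2 ∈ Kc}) ∂volume :=
      Measure.prod_apply_symm hKm2
    have f3 : ∀ y : Circ, volume (Prod.mk y ⁻¹' {z : Circ × Circ | z.1 + z.2 ∈ Kc}) = 0 := by
      intro y
      have : Prod.mk y ⁻¹' {z : Circ × Circ | z.1 + z.2 ∈ Kc} = (fun s => y + s) ⁻¹' Kc := rfl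
      rw [this, measure_preimage_add, hKv]
    simp only [f3, lintegral_zero] at f1
    rw [f1] at f2
    exact f2.symm
  have hge : c / 2 ≤ ∫⁻ s, g s ∂(volume : Measure Circ) := by
    calc c / 2 = ∫⁻ _s, c / 2 ∂(volume : Measure Circ) := by simp
      _ ≤ _ := lintegral_mono hgall
  rw [hint] at hge
  exact hc2 (le_antisymm hge bot_le)

end Pool.Agent.H705R2
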