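import Mathlib
import Pool.Agent.H705R2.Rot

set_option autoImplicit false

open MeasureTheory Filter Topology Set

namespace Pool.Agent.H705R2

/-- points that are badly approximable at level `k` -/
def NA (k : ℕ) : Set Circ := {x | ∀ m : ℕ, m ∈ Finset.Icc 1 (2 ^ k) → 2 * (1 / 2 : ℝ) ^ (3 * k) < ‖m • x‖}

lemma isOpen_NA (k : ℕ) : IsOpen (NA k) := by
  have : NA k = ⋂ m ∈ Finset.Icc 1 (2 ^ k), {x : Circ | 2 * (1 / 2 : ℝ) ^ (3 * k) < ‖m • x‖} := by
    ext x; simp [NA]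
  rw [this]
  refine isOpen_biInter_finset fun m _ => ?_
  exact isOpen_lt continuous_const (by fun_prop)

lemma sep_of_NA {k n₀ : ℕ} (h0 : 1 ≤ n₀) (hn₀ : n₀ ≤ 2 ^ k) {x : Circ} (hx : n₀ • x ∈ NA k)
    {n n' : ℕ} (hn : n < n') (hn' : n' ≤ 2 ^ k) :
    2 * (1 / 2 : ℝ) ^ (4 * k) < dist (n • x) (n' • x) := by
  have h1 : dist (n • x) (n' • x) = ‖(n' - n) • x‖ := by
    rw [dist_comm, dist_eq_norm, sub_nsmul _ hn.le, sub_eq_add_neg]
  rw [h1]
  have h2 := hx (n' - n) (Finset.mem_Icc.2 ⟨by omega, by omega⟩)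
  have h3 : ‖(n' - n) • n₀ • x‖ ≤ n₀ * ‖(n' - n) • x‖ := by
    rw [smul_comm]
    exact norm_nsmul_le
  have h4 : (n₀ : ℝ) ≤ 2 ^ k := by exact_mod_cast hn₀
  have h5 : (n₀ : ℝ) * ‖(n' - n) • x‖ ≤ 2 ^ k * ‖(n' - n) • x‖ := by gcongr
  have h6 : 2 * (1 / 2 : ℝ) ^ (3 * k) < 2 ^ k * ‖(n' - n) • x‖ := by linarith
  have h7 : (2 : ℝ) ^ k * (2 * (1 / 2 : ℝ) ^ (4 * k)) = 2 * (1 / 2 : ℝ) ^ (3 * k) := by
    rw [show 4 * k = k + 3 * k by ring, pow_add, ← mul_assoc, mul_comm ((2 : ℝ) ^ k) 2, mul_assoc,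
      ← mul_assoc ((2 : ℝ) ^ k), ← mul_pow]
    norm_num
  rw [← h7] at h6
  exact lt_of_mul_lt_mul_left h6 (by positivity)

/-- Main inequality. -/
theorem quad_ineq {p q : ℕ} (hp : 2 ≤ p) (hq : 2 ≤ q) (h : MulIndep p q) {μ : Measure Circ}
    [IsProbabilityMeasure μ] (hμp : MeasurePreserving (fun y : Circ => p • y) μ μ)
    (hμq : MeasurePreserving (fun y : Circ => q • y) μ μ) (k : ℕ) :
    ((k : ENNReal) ^ 2 / (4 * p * q)) *
      ∫⁻ y, (NA k).indicator (fun y => μ (Metric.ball y ((1 / 2 : ℝ) ^ (4 * k)))) y ∂μ ≤ 1 := by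
  classical
  set r : ℝ := (1 / 2 : ℝ) ^ (4 * k) with hr
  set F : Circ → ENNReal := (NA k).indicator (fun y => μ (Metric.ball y r)) with hF
  have hball : Measurable fun y : Circ => μ (Metric.ball y r) := by
    have hU : IsOpen {z : Circ × Circ | dist z.2 z.1 < r} := isOpen_lt (by fun_prop) continuous_const
    exact measurable_measure_prodMk_left hU.measurableSet
  have hFm : Measurable F := hball.indicator (isOpen_NA k).measurableSet
  -- index set
  set I : Finset (ℕ × ℕ) := Finset.range (k / (2 * p) + 1) ×ˢ Finset.range (k / (2 * q) + 1) with hI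
  set N : ℕ × ℕ → ℕ := fun i => p ^ i.1 * q ^ i.2 with hN
  have hNpos : ∀ i, 1 ≤ N i := fun i => Nat.one_le_iff_ne_zero.2 (by simp only [hN]; positivity)
  have hNle : ∀ i ∈ I, N i ≤ 2 ^ k := by
    intro i hi
    simp only [hI, Finset.mem_product, Finset.mem_range] at hi
    have h1 : p ^ i.1 ≤ (2 ^ p) ^ i.1 := Nat.pow_le_pow_left (Nat.lt_two_pow_self).le _
    have h2 : q ^ i.2 ≤ (2 ^ q) ^ i.2 := Nat.pow_le_pow_left (Nat.lt_two_pow_self).le _
    rw [← pow_mul] at h1 h2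
    have h3 : p * i.1 ≤ k / 2 := by
      have : i.1 ≤ k / 2 / p := by rw [Nat.div_div_eq_div_mul]; omega
      calc p * i.1 ≤ p * (k / 2 / p) := Nat.mul_le_mul_left _ this
        _ ≤ k / 2 := Nat.mul_div_le _ _
    have h4 : q * i.2 ≤ k / 2 := by
      have : i.2 ≤ k / 2 / q := by rw [Nat.div_div_eq_div_mul]; omega
      calc q * i.2 ≤ q * (k / 2 / q) := Nat.mul_le_mul_left _ this
        _ ≤ k / 2 := Nat.mul_div_le _ _
    calc N i ≤ 2 ^ (p * i.1) * 2 ^ (q * i.2) := Nat.mul_le_mul h1 h2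
      _ = 2 ^ (p * i.1 + q * i.2) := by rw [pow_add]
      _ ≤ 2 ^ k := Nat.pow_le_pow_right (by norm_num) (by omega)
  have hNinj : Function.Injective N := by
    rintro ⟨a, b⟩ ⟨a', b'⟩ hab
    simp only [hN] at hab
    have key : ∀ a b a' b' : ℕ, a ≤ a' → p ^ a * q ^ b = p ^ a' * q ^ b' → a = a' ∧ b = b' := by
      intro a b a' b' haa hab
      obtain ⟨d, rfl⟩ := Nat.exists_eq_add_of_le haa
      rw [pow_add, mul_assoc] at hab
      have h1 : q ^ b = p ^ d * q ^ b' := Nat.eq_of_mul_eq_mul_left (by positivity) hab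
      have h2 : b' ≤ b := by
        have : q ^ b' ≤ q ^ b := by
          rw [h1]; exact Nat.le_mul_of_pos_left _ (by positivity)
        exact (Nat.pow_le_pow_iff_right (by omega)).1 this
      obtain ⟨e, rfl⟩ := Nat.exists_eq_add_of_le h2
      rw [pow_add, mul_comm] at h1
      have h3 : q ^ e = p ^ d := Nat.eq_of_mul_eq_mul_right (by positivity) h1
      have h4 := h d e h3.symm
      omega
    rcases le_total a a' with haa | haa
    · have := key a b a' b' haa hab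
      simp [this.1, this.2]
    · have := key a' b' a b haa hab.symm
      simp [this.1, this.2]
  -- pointwise bound
  have hpt : ∀ x : Circ, ∑ i ∈ I, F (N i • x) ≤ 1 := by
    intro x
    by_cases hx : ∃ i ∈ I, N i • x ∈ NA k
    · obtain ⟨i₀, hi₀, hx₀⟩ := hx
      have hdisj : (I : Set (ℕ × ℕ)).PairwiseDisjoint fun i => Metric.ball (N i • x) r := by
        intro i hi j hj hij
        have hne : N i ≠ N j := fun h => hij (hNinj h)
        have hd : 2 * r < dist (N i • x) (N j • x) := by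
          rcases lt_or_gt_of_ne hne with hlt | hlt
          · exact sep_of_NA (hNpos i₀) (hNle i₀ hi₀) hx₀ hlt (hNle j hj)
          · rw [dist_comm]
            exact sep_of_NA (hNpos i₀) (hNle i₀ hi₀) hx₀ hlt (hNle i hi)
        exact Metric.ball_disjoint_ball (by linarith)
      calc ∑ i ∈ I, F (N i • x) ≤ ∑ i ∈ I, μ (Metric.ball (N i • x) r) := by
            refine Finset.sum_le_sum fun i _ => ?_
            exact indicator_le_self _ (fun y => μ (Metric.ball y r)) (N i • x)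
        _ = μ (⋃ i ∈ I, Metric.ball (N i • x) r) :=
            (measure_biUnion_finset hdisj fun i _ => Metric.isOpen_ball.measurableSet).symm
        _ ≤ 1 := prob_le_one
    · push Not at hx
      have : ∑ i ∈ I, F (N i • x) = 0 := Finset.sum_eq_zero fun i hi => indicator_of_notMem (hx i hi) _
      rw [this]; exact zero_le_one
  have hMP : ∀ i, MeasurePreserving (fun y : Circ => N i • y) μ μ := by
    intro i
    have h1 := (hμp.iterate i.1).comp (hμq.iterate i.2)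
    have h2 : ((fun y : Circ => p • y)^[i.1] ∘ (fun y : Circ => q • y)^[i.2]) = fun y : Circ => N i • y := by
      have hit : ∀ (c m : ℕ) (x : Circ), (fun y : Circ => c • y)^[m] x = c ^ m • x := by
        intro c m x
        induction m with
        | zero => simp
        | succ m ih => rw [Function.iterate_succ_apply', ih, pow_succ', mul_smul]
      ext x
      simp only [Function.comp, hit, hN, mul_smul]
    rwa [h2] at h1
  have hsum : ∑ i ∈ I, ∫⁻ x, F (N i • x) ∂μ ≤ 1 := by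
    rw [← lintegral_finsetSum]
    · calc ∫⁻ x, ∑ i ∈ I, F (N i • x) ∂μ ≤ ∫⁻ _x, 1 ∂μ := lintegral_mono hpt
        _ = 1 := by simp
    · intro i _
      exact hFm.comp (hMP i).measurable
  have hterm : ∀ i ∈ I, ∫⁻ x, F (N i • x) ∂μ = ∫⁻ y, F y ∂μ := fun i _ =>
    (hMP i).lintegral_comp hFm
  rw [Finset.sum_congr rfl hterm, Finset.sum_const, nsmul_eq_mul] at hsum
  refine le_trans ?_ hsum
  gcongr
  -- cardinality
  rw [hI, Finset.card_product, Finset.card_range, Finset.card_range]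
  have h1 : (k : ℝ) / (2 * p) ≤ ((k / (2 * p) + 1 : ℕ) : ℝ) := by
    rw [div_le_iff₀ (by positivity)]
    have := Nat.lt_div_mul_add (a := k) (b := 2 * p) (by omega)
    have h2 : k ≤ (k / (2 * p) + 1) * (2 * p) := by
      rw [Nat.add_mul, one_mul]; omega
    exact_mod_cast h2
  have h2 : (k : ℝ) / (2 * q) ≤ ((k / (2 * q) + 1 : ℕ) : ℝ) := by
    rw [div_le_iff₀ (by positivity)]
    have := Nat.lt_div_mul_add (a := k) (b := 2 * q) (by omega)
    have h2 : k ≤ (k / (2 * q) + 1) * (2 * q) := by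
      rw [Nat.add_mul, one_mul]; omega
    exact_mod_cast h2
  have h3 : (k : ℝ) ^ 2 / (4 * p * q) ≤ (((k / (2 * p) + 1) * (k / (2 * q) + 1) : ℕ) : ℝ) := by
    push_cast at h1 h2 ⊢
    calc (k : ℝ) ^ 2 / (4 * p * q) = ((k : ℝ) / (2 * p)) * ((k : ℝ) / (2 * q)) := by
          field_simp; ring
      _ ≤ _ := by gcongr
  have h4 : ((k : ENNReal) ^ 2 / (4 * p * q)) = ENNReal.ofReal ((k : ℝ) ^ 2 / (4 * p * q)) := by
    rw [ENNReal.ofReal_div_of_pos (by positivity), ENNReal.ofReal_pow (by positivity),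
      ENNReal.ofReal_mul (by positivity), ENNReal.ofReal_mul (by positivity)]
    simp
  rw [h4, ← ENNReal.ofReal_natCast]
  exact ENNReal.ofReal_le_ofReal h3

/-- every irrational point is badly approximable at infinitely many levels `2 ^ j` -/
theorem frequently_NA {x : Circ} (hx : ¬ IsOfFinAddOrder x) : ∃ᶠ j : ℕ in atTop, x ∈ NA (2 ^ j) := by
  by_contra hcon
  rw [not_frequently, eventually_atTop] at hcon
  obtain ⟨j₀, hj₀⟩ := hcon
  obtain ⟨ρ, rfl⟩ := QuotientAddGroup.mk_surjective x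
  change ¬ IsOfFinAddOrder (ρ : Circ) at hx
  change ∀ b ≥ j₀, (ρ : Circ) ∉ NA (2 ^ b) at hj₀
  have h1 : ∀ j : ℕ, ∃ m : ℕ, ∃ a : ℤ, 1 ≤ m ∧ m ≤ 2 ^ 2 ^ (j + j₀ + 2) ∧
      |(m : ℝ) * ρ - a| ≤ 2 * (1 / 2 : ℝ) ^ (3 * 2 ^ (j + j₀ + 2)) := by
    intro j
    have h2 := hj₀ (j + j₀ + 2) (by omega)
    simp only [NA, mem_ofPred_eq, not_forall, not_lt, Finset.mem_Icc] at h2
    obtain ⟨m, hm, hmx⟩ := h2
    refine ⟨m, round ((m : ℝ) * ρ), hm.1, hm.2, ?_⟩
    rw [← AddCircle.coe_nsmul, nsmul_eq_mul, UnitAddCircle.norm_eq] at hmx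
    exact hmx
  choose m a hm1 hm2 hma using h1
  have hcross : ∀ j, m (j + 1) * a j = m j * a (j + 1) := by
    intro j
    set K : ℕ := 2 ^ (j + j₀ + 2) with hK
    have hK4 : 4 ≤ K := by
      rw [hK]
      calc 4 = 2 ^ 2 := by norm_num
        _ ≤ 2 ^ (j + j₀ + 2) := Nat.pow_le_pow_right (by norm_num) (by omega)
    have hK' : 2 ^ (j + 1 + j₀ + 2) = 2 * K := by rw [hK]; ring
    have e1 := hma j
    have e2 := hma (j + 1)
    have b1 := hm2 j
    have b2 := hm2 (j + 1)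
    rw [hK'] at e2 b2
    rw [← hK] at e1 b1
    have b1' : (m j : ℝ) ≤ 2 ^ K := by exact_mod_cast b1
    have b2' : (m (j + 1) : ℝ) ≤ 2 ^ (2 * K) := by exact_mod_cast b2
    have h3 : |((m (j + 1) * a j - m j * a (j + 1) : ℤ) : ℝ)| < 1 := by
      have h4 : ((m (j + 1) * a j - m j * a (j + 1) : ℤ) : ℝ) =
          m j * ((m (j + 1) : ℝ) * ρ - a (j + 1)) - m (j + 1) * ((m j : ℝ) * ρ - a j) := by
        push_cast; ring
      rw [h4]
      calc |m j * ((m (j + 1) : ℝ) * ρ - a (j + 1)) - m (j + 1) * ((m j : ℝ) * ρ - a j)|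
          ≤ |m j * ((m (j + 1) : ℝ) * ρ - a (j + 1))| + |m (j + 1) * ((m j : ℝ) * ρ - a j)| := abs_sub _ _
        _ ≤ 2 ^ K * (2 * (1 / 2 : ℝ) ^ (3 * (2 * K))) + 2 ^ (2 * K) * (2 * (1 / 2 : ℝ) ^ (3 * K)) := by
            rw [abs_mul, abs_mul, Nat.abs_cast, Nat.abs_cast]
            gcongr
        _ = 2 * (1 / 2 : ℝ) ^ (5 * K) + 2 * (1 / 2 : ℝ) ^ K := by
            have f1 : (2 : ℝ) ^ K * (1 / 2 : ℝ) ^ K = 1 := by rw [← mul_pow]; norm_num
            have f2 : (2 : ℝ) ^ (2 * K) * (1 / 2 : ℝ) ^ (2 * K) = 1 := by rw [← mul_pow]; norm_num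
            rw [show 3 * (2 * K) = K + 5 * K by ring, show 3 * K = 2 * K + K by ring, pow_add, pow_add]
            linear_combination (2 * (1 / 2 : ℝ) ^ (5 * K)) * f1 + (2 * (1 / 2 : ℝ) ^ K) * f2
        _ < 1 := by
            have g1 : (1 / 2 : ℝ) ^ K ≤ (1 / 2 : ℝ) ^ 4 := pow_le_pow_of_le_one (by norm_num) (by norm_num) hK4
            have g2 : (1 / 2 : ℝ) ^ (5 * K) ≤ (1 / 2 : ℝ) ^ 4 :=
              pow_le_pow_of_le_one (by norm_num) (by norm_num) (by omega)
            norm_num at g1 g2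
            linarith
    have h5 : |(m (j + 1) * a j - m j * a (j + 1) : ℤ)| < 1 := by exact_mod_cast h3
    rw [Int.abs_lt_one_iff] at h5
    linarith
  have hconst : ∀ j, (a j : ℝ) / m j = (a 0 : ℝ) / m 0 := by
    intro j
    induction j with
    | zero => rfl
    | succ j ih =>
      rw [← ih]
      have p1 : (m j : ℝ) ≠ 0 := by have := hm1 j; positivity
      have p2 : (m (j + 1) : ℝ) ≠ 0 := by have := hm1 (j + 1); positivity
      rw [div_eq_div_iff p2 p1]
      have := hcross j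
      have h6 : (m (j + 1) : ℝ) * a j = m j * a (j + 1) := by exact_mod_cast this
      linarith
  have hlim : ρ = (a 0 : ℝ) / m 0 := by
    have h7 : ∀ j : ℕ, |ρ - (a 0 : ℝ) / m 0| ≤ 2 * (1 / 2 : ℝ) ^ j := by
      intro j
      have p1 : (1 : ℝ) ≤ m j := by exact_mod_cast hm1 j
      have h8 : ρ - (a 0 : ℝ) / m 0 = ((m j : ℝ) * ρ - a j) / m j := by
        rw [← hconst j]; field_simp
      rw [h8, abs_div, abs_of_pos (by linarith : (0 : ℝ) < m j)]
      calc |(m j : ℝ) * ρ - a j| / m j ≤ |(m j : ℝ) * ρ - a j| := div_le_self (abs_nonneg _) p1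
        _ ≤ 2 * (1 / 2 : ℝ) ^ (3 * 2 ^ (j + j₀ + 2)) := hma j
        _ ≤ 2 * (1 / 2 : ℝ) ^ j := by
            have : j ≤ 3 * 2 ^ (j + j₀ + 2) := by
              have h9 : j + j₀ + 2 < 2 ^ (j + j₀ + 2) := Nat.lt_two_pow_self
              omega
            have := pow_le_pow_of_le_one (by norm_num : (0 : ℝ) ≤ 1 / 2) (by norm_num) this
            linarith
    have h10 : Tendsto (fun j : ℕ => 2 * (1 / 2 : ℝ) ^ j) atTop (𝓝 (2 * 0)) :=
      (tendsto_pow_atTop_nhds_zero_of_lt_one (by norm_num) (by norm_num)).const_mul 2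
    rw [mul_zero] at h10
    have h11 : |ρ - (a 0 : ℝ) / m 0| ≤ 0 := ge_of_tendsto' h10 h7
    have := abs_eq_zero.1 (le_antisymm h11 (abs_nonneg _))
    linarith
  apply hx
  rw [isOfFinAddOrder_iff_nsmul_eq_zero]
  have p0 : (m 0 : ℝ) ≠ 0 := by have := hm1 0; positivity
  refine ⟨m 0, hm1 0, ?_⟩
  rw [← AddCircle.coe_nsmul, AddCircle.coe_eq_zero_iff]
  refine ⟨a 0, ?_⟩
  rw [hlim]
  simp only [zsmul_eq_mul, mul_one, nsmul_eq_mul]
  field_simp

end Pool.Agent.H705R2
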