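import Mathlib
import Pool.Agent.H705R2.Quad
import Pool.Agent.H705R2.Orb

set_option autoImplicit false

open MeasureTheory Filter Topology Set

namespace Pool.Agent.H705R2

lemma mulIndep_of_irrational {p q : ℕ} (hp : 2 ≤ p) (hq : 2 ≤ q)
    (hirr : Irrational (Real.log p / Real.log q)) : MulIndep p q := by
  intro m n hmn
  have hp1 : (1 : ℝ) < p := by exact_mod_cast (by omega : 1 < p)
  have hq1 : (1 : ℝ) < q := by exact_mod_cast (by omega : 1 < q)
  have hlp : 0 < Real.log p := Real.log_pos hp1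
  have hlq : 0 < Real.log q := Real.log_pos hq1
  have h1 : (m : ℝ) * Real.log p = n * Real.log q := by
    rw [← Real.log_pow, ← Real.log_pow]
    congr 1
    exact_mod_cast hmn
  have hm : m = 0 := by
    by_contra hm
    apply hirr
    refine ⟨(n : ℚ) / m, ?_⟩
    push_cast
    have hm' : (m : ℝ) ≠ 0 := by exact_mod_cast hm
    rw [div_eq_div_iff hm' hlq.ne']
    linarith
  refine ⟨hm, ?_⟩
  rw [hm, Nat.cast_zero, zero_mul] at h1
  rcases mul_eq_zero.1 h1.symm with h | h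
  · exact_mod_cast h
  · exact absurd h hlq.ne'

/-- exceptional sets -/
def Ex (μ : Measure Circ) (s : ℝ) (j : ℕ) : Set Circ :=
  {x | x ∈ NA (2 ^ j) ∧ ENNReal.ofReal (((j : ℝ) + 1) ^ s / 4 ^ j) ≤
    μ (Metric.ball x ((1 / 2 : ℝ) ^ (4 * 2 ^ j)))}

lemma measure_Ex {p q : ℕ} (hp : 2 ≤ p) (hq : 2 ≤ q) (h : MulIndep p q) {μ : Measure Circ}
    [IsProbabilityMeasure μ] (hμp : MeasurePreserving (fun y : Circ => p • y) μ μ)
    (hμq : MeasurePreserving (fun y : Circ => q • y) μ μ) (s : ℝ) (j : ℕ) :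
    μ (Ex μ s j) ≤ ENNReal.ofReal ((4 * p * q) * (1 / ((j : ℝ) + 1) ^ s)) := by
  have hq0 := quad_ineq hp hq h hμp hμq (2 ^ j)
  set r : ℝ := (1 / 2 : ℝ) ^ (4 * 2 ^ j) with hr
  set F : Circ → ENNReal := (NA (2 ^ j)).indicator (fun y => μ (Metric.ball y r)) with hF
  have hball : Measurable fun y : Circ => μ (Metric.ball y r) := by
    have hU : IsOpen {z : Circ × Circ | dist z.2 z.1 < r} := isOpen_lt (by fun_prop) continuous_const
    exact measurable_measure_prodMk_left hU.measurableSet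
  have hFm : Measurable F := hball.indicator (isOpen_NA _).measurableSet
  have h1 := mul_meas_ge_le_lintegral (μ := μ) hFm (ENNReal.ofReal (((j : ℝ) + 1) ^ s / 4 ^ j))
  have hsub : Ex μ s j ⊆ {x | ENNReal.ofReal (((j : ℝ) + 1) ^ s / 4 ^ j) ≤ F x} := by
    rintro x ⟨hx1, hx2⟩
    simp only [mem_ofPred_eq, hF]
    rw [indicator_of_mem hx1]
    exact hx2
  have h2 : ENNReal.ofReal (((j : ℝ) + 1) ^ s / 4 ^ j) * μ (Ex μ s j) ≤ ∫⁻ y, F y ∂μ :=
    (mul_le_mul_right (measure_mono hsub) _).trans h1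
  have hc : ENNReal.ofReal ((4 : ℝ) ^ j / (4 * p * q)) = (((2 ^ j : ℕ) : ENNReal) ^ 2 / (4 * p * q)) := by
    rw [ENNReal.ofReal_div_of_pos (by positivity), ENNReal.ofReal_pow (by positivity),
      ENNReal.ofReal_mul (by positivity), ENNReal.ofReal_mul (by positivity)]
    simp only [ENNReal.ofReal_ofNat, ENNReal.ofReal_natCast, Nat.cast_pow, Nat.cast_ofNat]
    congr 1
    rw [← pow_mul, mul_comm, pow_mul]; norm_num
  have h3 : ENNReal.ofReal ((4 : ℝ) ^ j / (4 * p * q)) *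
      (ENNReal.ofReal (((j : ℝ) + 1) ^ s / 4 ^ j) * μ (Ex μ s j)) ≤ 1 := by
    rw [hc]
    exact (mul_le_mul_right h2 _).trans hq0
  rw [← mul_assoc, ← ENNReal.ofReal_mul (by positivity)] at h3
  have hpos : (0 : ℝ) < ((j : ℝ) + 1) ^ s := by positivity
  have h4 : (4 : ℝ) ^ j / (4 * p * q) * (((j : ℝ) + 1) ^ s / 4 ^ j) = ((j : ℝ) + 1) ^ s / (4 * p * q) := by
    have : (p : ℝ) ≠ 0 := by positivity
    have : (q : ℝ) ≠ 0 := by positivity
    field_simp
  rw [h4] at h3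
  have h5 : μ (Ex μ s j) ≤ (ENNReal.ofReal (((j : ℝ) + 1) ^ s / (4 * p * q)))⁻¹ := by
    rw [ENNReal.le_inv_iff_mul_le, mul_comm]; exact h3
  refine h5.trans (le_of_eq ?_)
  rw [← ENNReal.ofReal_inv_of_pos (by positivity)]
  congr 1
  rw [inv_div]; ring

theorem quad_dim {p q : ℕ} (hp : 2 ≤ p) (hq : 2 ≤ q) (h : MulIndep p q) {μ : Measure Circ}
    [IsProbabilityMeasure μ] [NullSingletonClass μ]
    (hμp : MeasurePreserving (fun y : Circ => p • y) μ μ)
    (hμq : MeasurePreserving (fun y : Circ => q • y) μ μ) {η : ℝ} (hη : 0 < η) :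
    ∀ᵐ x ∂μ, ∀ ε : ℝ, 0 < ε → ∃ᶠ n : ℕ in atTop,
      μ (Metric.ball x ((1 / 2 : ℝ) ^ n)) ≤ ENNReal.ofReal (ε * (Real.log n) ^ (1 + η) / (n : ℝ) ^ 2) := by
  have hnt : ∀ᵐ x ∂μ, ¬ IsOfFinAddOrder x := by
    rw [ae_iff]
    simp only [not_not]
    exact torsion_countable.measure_zero μ
  have hsumm : ∑' j, μ (Ex μ (1 + η / 2) j) ≠ ⊤ := by
    have hs : Summable fun j : ℕ => (4 * (p : ℝ) * q) * (1 / ((j : ℝ) + 1) ^ (1 + η / 2)) := by
      refine Summable.mul_left _ ?_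
      have := (summable_nat_add_iff 1).2 (Real.summable_one_div_nat_rpow.2 (by linarith : 1 < 1 + η / 2))
      simpa using this
    have h1 : ∑' j, μ (Ex μ (1 + η / 2) j) ≤
        ∑' j : ℕ, ENNReal.ofReal ((4 * (p : ℝ) * q) * (1 / ((j : ℝ) + 1) ^ (1 + η / 2))) :=
      ENNReal.tsum_le_tsum fun j => measure_Ex hp hq h hμp hμq _ j
    exact ne_top_of_le_ne_top hs.tsum_ofReal_ne_top h1
  filter_upwards [hnt, ae_eventually_notMem hsumm] with x hx1 hx2
  intro ε hε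
  have hfr := (frequently_NA hx1).and_eventually hx2
  -- comparison of gauges
  have hlog2 : 0 < Real.log 2 := Real.log_pos (by norm_num)
  have hev : ∀ᶠ j : ℕ in atTop, ((j : ℝ) + 1) ^ (1 + η / 2) / 4 ^ j ≤
      ε * (Real.log ((4 * 2 ^ j : ℕ) : ℝ)) ^ (1 + η) / ((4 * 2 ^ j : ℕ) : ℝ) ^ 2 := by
    have h1 : Tendsto (fun j : ℕ => ((j : ℝ) + 2) ^ (η / 2)) atTop atTop :=
      (tendsto_rpow_atTop (by positivity : 0 < η / 2)).comp
        (tendsto_atTop_add_const_right _ _ tendsto_natCast_atTop_atTop)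
    filter_upwards [h1.eventually_ge_atTop (16 / (ε * (Real.log 2) ^ (1 + η)))] with j hj
    have h2 : Real.log ((4 * 2 ^ j : ℕ) : ℝ) = ((j : ℝ) + 2) * Real.log 2 := by
      push_cast
      rw [show (4 : ℝ) * 2 ^ j = 2 ^ (j + 2) by ring, Real.log_pow]
      push_cast; ring
    have h3 : ((4 * 2 ^ j : ℕ) : ℝ) ^ 2 = 16 * 4 ^ j := by
      push_cast
      rw [mul_pow, ← pow_mul, mul_comm j 2, pow_mul]; norm_num
    rw [h2, h3, Real.mul_rpow (by positivity) hlog2.le]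
    have h4 : ((j : ℝ) + 2) ^ (1 + η) = ((j : ℝ) + 2) ^ (1 + η / 2) * ((j : ℝ) + 2) ^ (η / 2) := by
      rw [← Real.rpow_add (by positivity)]; congr 1; ring
    rw [h4, div_le_div_iff₀ (by positivity) (by positivity)]
    have h5 : ((j : ℝ) + 1) ^ (1 + η / 2) ≤ ((j : ℝ) + 2) ^ (1 + η / 2) :=
      Real.rpow_le_rpow (by positivity) (by linarith) (by positivity)
    have hL : 0 < (Real.log 2) ^ (1 + η) := by positivity
    rw [div_le_iff₀ (by positivity)] at hj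
    have h6 : 0 < (4 : ℝ) ^ j := by positivity
    calc ((j : ℝ) + 1) ^ (1 + η / 2) * (16 * 4 ^ j)
        ≤ ((j : ℝ) + 2) ^ (1 + η / 2) * (16 * 4 ^ j) := by gcongr
      _ ≤ ((j : ℝ) + 2) ^ (1 + η / 2) * ((((j : ℝ) + 2) ^ (η / 2) * (ε * (Real.log 2) ^ (1 + η))) * 4 ^ j) := by
          gcongr
      _ = ε * (((j : ℝ) + 2) ^ (1 + η / 2) * ((j : ℝ) + 2) ^ (η / 2) * (Real.log 2) ^ (1 + η)) * 4 ^ j := by
          ring
  have hfr2 := hfr.and_eventually hev
  have hn : Tendsto (fun j : ℕ => 4 * 2 ^ j) atTop atTop := by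
    refine tendsto_atTop_mono (fun j => ?_) tendsto_id
    simp only [id]
    have : j < 2 ^ j := Nat.lt_two_pow_self
    omega
  refine hn.frequently (hfr2.mono ?_)
  rintro j ⟨⟨hj1, hj2⟩, hj3⟩
  have h7 : μ (Metric.ball x ((1 / 2 : ℝ) ^ (4 * 2 ^ j))) <
      ENNReal.ofReal (((j : ℝ) + 1) ^ (1 + η / 2) / 4 ^ j) := by
    by_contra hcon
    exact hj2 ⟨hj1, not_lt.1 hcon⟩
  exact h7.le.trans (ENNReal.ofReal_le_ofReal hj3)

end Pool.Agent.H705R2
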